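import Pool.Agent.DBX.DIA2.Stmts

set_option autoImplicit false

namespace Pool.Agent.DBX.DIA2

open KaehlerDifferential Pool.Agent.DBE Pool.Agent.DBX Pool.Agent.DBX.DIB

universe u

namespace CAR_

/-- the subgroup `m A` -/
def mA {R : Type u} [CommRing R] (A : AddSubgroup R) (m : R) : AddSubgroup R :=
  A.map (AddMonoidHom.mulLeft m)

theorem mem_mA {R : Type u} [CommRing R] {A : AddSubgroup R} {m x : R} :
    x ∈ mA A m ↔ ∃ a ∈ A, x = m * a := by
  constructor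
  · rintro ⟨a, ha, rfl⟩
    exact ⟨a, ha, rfl⟩
  · rintro ⟨a, ha, rfl⟩
    exact ⟨a, ha, rfl⟩

theorem kd_zero {N : ℕ} {G : Type u} [AddCommGroup G] (θ : Fin N → G →+ G)
    (a : Finset (Fin N) → G) (h : ∀ i J, θ i (a J) = 0) : kd θ a = 0 := by
  funext J
  apply Finset.sum_eq_zero
  intro i _
  rw [h, smul_zero]

end CAR_

open CAR_ in
theorem car_proof (hDIF : Stmt_DIF.{u}) (hTHC : Stmt_THC.{u}) (hTHW : Stmt_THW.{u})
    (hKOS : Stmt_KOS.{u}) (hFRM : Stmt_FRM.{u}) : Stmt_CAR.{u} := by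
  intro p _ N R _ _ _ A t hC θ' Λ hθ' hθ'' hΛ hΛ' c c' hc hc' hcc
  obtain ⟨θ, hθ⟩ := hDIF p N R A t hC
  obtain ⟨-, hcomm⟩ := hTHC p N R A t hC θ hθ
  obtain ⟨w1, w2, w3⟩ := hTHW p N R A t hC θ hθ c'
  obtain ⟨w4, w5, w6⟩ := w3 c hc hc' hcc
  obtain ⟨co, o1, o2, o3, o4⟩ := hFRM p N R A t hC θ hθ
  have o5 := o4 θ' Λ hθ' hθ'' hΛ hΛ'
  let A' : AddSubgroup R := A.toSubring.toAddSubgroup
  have hA' : ∀ x, x ∈ A' ↔ x ∈ A := fun x => Iff.rfl
  let U : AddSubgroup R := mA A' (mon t c')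
  have hU : ∀ x, x ∈ U ↔ ∃ a ∈ A, x = mon t c' * a := fun x => mem_mA
  have u1 : ∀ i, ∀ x ∈ U, θ i x ∈ U := by
    intro i x hx
    obtain ⟨a, ha, rfl⟩ := (hU x).mp hx
    obtain ⟨a', ha', e⟩ := w1 i a ha
    exact (hU _).mpr ⟨a', ha', e⟩
  have u2 : ∀ i, ∀ x ∈ U, (θ i)^[p] x = θ i x := by
    intro i x hx
    obtain ⟨a, ha, rfl⟩ := (hU x).mp hx
    exact w2 i a ha
  obtain ⟨k1, k2⟩ := hKOS p N R θ U hcomm u1 u2
  -- the operator Λ on forms
  have hL : ∀ x : Finset (Fin N) → R, Λ (fn (ZMod p) R (mon t c) * co x) =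
      co (fun I => (mon t c * x I) ^ p) := by
    intro x
    rw [o2, o5]
  constructor
  · intro x hx y hy h
    obtain ⟨xx, rfl⟩ := co.surjective x
    obtain ⟨yy, rfl⟩ := co.surjective y
    rw [hL, o2, o1] at h
    have h' := co.injective h
    rw [o3] at hx hy
    have h6 : ∀ I, (mon t c * xx I) ^ p ∈ U := by
      intro I
      obtain ⟨a, ha, e⟩ := w5 (xx I) (hx I)
      exact (hU _).mpr ⟨a, ha, e⟩
    have h7 : ∀ I, mon t c' * yy I ∈ U := fun I => (hU _).mpr ⟨yy I, hy I, rfl⟩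
    have h8 : ∀ i J, θ i ((mon t c * xx J) ^ p) = 0 := by
      intro i J
      exact (hTHC p N R A t hC θ hθ).1 i _
    have h9 := k2 (fun I => (mon t c * xx I) ^ p) (fun I => mon t c' * yy I) h6 h7 h8 h'
    rw [o2]
    have h10 : (fun I => mon t c * xx I) = 0 := by
      funext I
      exact w6 _ (congrFun h9 I)
    rw [h10, map_zero]
  · intro y hy h
    obtain ⟨yy, rfl⟩ := co.surjective y
    rw [o2, o1] at h
    have h' : kd θ (fun I => mon t c' * yy I) = 0 := by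
      apply co.injective
      rw [h, map_zero]
    rw [o3] at hy
    have h7 : ∀ I, mon t c' * yy I ∈ U := fun I => (hU _).mpr ⟨yy I, hy I, rfl⟩
    obtain ⟨b, hb, hb2⟩ := k1 (fun I => mon t c' * yy I) h7 h'
    have hb3 : ∀ J, ∃ b' ∈ A, b J = mon t c' * b' := fun J => (hU _).mp (hb J)
    choose b' hb' eb using hb3
    -- kd b has values in U
    have hkU : ∀ J, kd θ b J ∈ U := by
      intro J
      apply U.sum_mem
      intro i _
      exact U.zsmul_mem (u1 i _ (hb _)) _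
    have h11 : ∀ J, ∃ x' ∈ A, mon t c' * yy J - kd θ b J = (mon t c * x') ^ p := by
      intro J
      obtain ⟨a, ha, ea⟩ := (hU _).mp (U.sub_mem (h7 J) (hkU J))
      rw [ea]
      apply w4 a ha
      intro i
      rw [← ea]
      exact hb2 J i
    choose x hx ex using h11
    refine ⟨co x, (o3 x).mpr hx, co b', (o3 b').mpr hb', ?_⟩
    rw [hL, o2, o2, o1, ← map_add]
    congr 1
    funext J
    rw [Pi.add_apply]
    have e3 : (fun I => mon t c' * b' I) = b := by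
      funext I
      exact (eb I).symm
    rw [e3, ← ex J]
    ring

end Pool.Agent.DBX.DIA2
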