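import Pool.Agent.DBX.DIA2.Stmts

set_option autoImplicit false

/-! # DBX, area DIA2, module DIF: existence of the derivations `θ_i` -/

namespace Pool.Agent.DBX.DIA2

open KaehlerDifferential Pool.Agent.DBE Pool.Agent.DBX Pool.Agent.DBX.DIB

universe u

noncomputable section

namespace DIF_

open TensorProduct

/-- basis of the differentials of a formally étale algebra over a polynomial ring -/
theorem exists_basis (k : Type) [CommRing k] (N : ℕ) (S : Type u) [CommRing S] [Algebra k S]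
    [Algebra (MvPolynomial (Fin N) k) S] [IsScalarTower k (MvPolynomial (Fin N) k) S]
    [Algebra.FormallyEtale (MvPolynomial (Fin N) k) S] :
    ∃ b : Module.Basis (Fin N) S (Ω[S⁄k]), ∀ i,
      b i = D k S (algebraMap (MvPolynomial (Fin N) k) S (MvPolynomial.X i)) := by
  refine ⟨((mvPolynomialBasis k (Fin N)).baseChange S).map
    (tensorKaehlerEquivOfFormallyEtale k (MvPolynomial (Fin N) k) S), fun i => ?_⟩
  rw [Module.Basis.map_apply, Module.Basis.baseChange_apply,
    tensorKaehlerEquivOfFormallyEtale_apply, mvPolynomialBasis_apply, mapBaseChange_tmul,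
    one_smul, map_D]

theorem both (p : ℕ) [Fact p.Prime] (N : ℕ) (R : Type u) [CommRing R] [Algebra (ZMod p) R]
    (A : Subalgebra (ZMod p) R) (t : Fin N → Rˣ) (h : Chart p R A t) :
    (∃ b : Module.Basis (Fin N) A (Ω[A⁄ZMod p]), ∀ i, b i = D (ZMod p) A ⟨(t i : R), h.t_mem i⟩) ∧
    (∃ b : Module.Basis (Fin N) R (Ω[R⁄ZMod p]), ∀ i, b i = D (ZMod p) R (t i : R)) := by
  let f : MvPolynomial (Fin N) (ZMod p) →ₐ[ZMod p] A :=
    MvPolynomial.aeval (R := ZMod p) (fun i => (⟨(t i : R), h.t_mem i⟩ : A))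
  have hf : f.toRingHom.Etale := h.etale
  letI a1 : Algebra (MvPolynomial (Fin N) (ZMod p)) A := f.toRingHom.toAlgebra
  haveI e1 : Algebra.Etale (MvPolynomial (Fin N) (ZMod p)) A := hf
  haveI s1 : IsScalarTower (ZMod p) (MvPolynomial (Fin N) (ZMod p)) A :=
    IsScalarTower.of_algebraMap_eq fun r => (f.commutes r).symm
  have hX1 : ∀ i, algebraMap (MvPolynomial (Fin N) (ZMod p)) A (MvPolynomial.X i) =
      ⟨(t i : R), h.t_mem i⟩ := fun i => MvPolynomial.aeval_X _ i
  letI a2 : Algebra (MvPolynomial (Fin N) (ZMod p)) R :=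
    ((algebraMap A R).comp (algebraMap (MvPolynomial (Fin N) (ZMod p)) A)).toAlgebra
  haveI s2 : IsScalarTower (MvPolynomial (Fin N) (ZMod p)) A R :=
    IsScalarTower.of_algebraMap_eq fun r => rfl
  haveI s3 : IsScalarTower (ZMod p) (MvPolynomial (Fin N) (ZMod p)) R :=
    IsScalarTower.of_algebraMap_eq fun r => by
      rw [IsScalarTower.algebraMap_apply (MvPolynomial (Fin N) (ZMod p)) A R,
        ← IsScalarTower.algebraMap_apply (ZMod p) (MvPolynomial (Fin N) (ZMod p)) A,
        ← IsScalarTower.algebraMap_apply (ZMod p) A R]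
  have hX2 : ∀ i, algebraMap (MvPolynomial (Fin N) (ZMod p)) R (MvPolynomial.X i) =
      (t i : R) := fun i => by
    rw [IsScalarTower.algebraMap_apply (MvPolynomial (Fin N) (ZMod p)) A R, hX1]
    rfl
  obtain ⟨g, hg, hgu, hloc⟩ := h.loc
  haveI l1 : IsLocalization (Submonoid.powers (⟨g, hg⟩ : A)) R := by
    refine ⟨⟨?_, ?_, ?_⟩⟩
    · rintro ⟨_, n, rfl⟩
      change IsUnit (algebraMap A R ((⟨g, hg⟩ : A) ^ n))
      rw [map_pow]
      exact hgu.pow n
    · intro x
      obtain ⟨e, he⟩ := hloc x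
      exact ⟨(⟨x * g ^ e, he⟩, ⟨_, e, rfl⟩), rfl⟩
    · intro x y hxy
      exact ⟨1, by rw [Subtype.ext hxy]⟩
  haveI e2 : Algebra.FormallyEtale A R :=
    Algebra.FormallyEtale.of_isLocalization (Submonoid.powers (⟨g, hg⟩ : A))
  haveI e3 : Algebra.FormallyEtale (MvPolynomial (Fin N) (ZMod p)) R :=
    Algebra.FormallyEtale.comp _ A R
  constructor
  · obtain ⟨b, hb⟩ := exists_basis (ZMod p) N A
    exact ⟨b, fun i => by rw [hb, hX1]⟩
  · obtain ⟨b, hb⟩ := exists_basis (ZMod p) N R
    exact ⟨b, fun i => by rw [hb, hX2]⟩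

end DIF_

theorem dif_proof : Stmt_DIF.{u} := by
  intro p _ N R _ _ A t h
  obtain ⟨⟨bA, hbA⟩, ⟨b, hb⟩⟩ := DIF_.both p N R A t h
  let θ : Fin N → R →+ R := fun i =>
    { toFun := fun a => (t i : R) * b.repr (D (ZMod p) R a) i
      map_zero' := by simp
      map_add' := fun a a' => by simp [mul_add] }
  have hθ : ∀ i a, θ i a = (t i : R) * b.repr (D (ZMod p) R a) i := fun i a => rfl
  have hlg : ∀ (i : Fin N) (r : R), r • lg (p := p) (t i) = (r * ((t i)⁻¹ : Rˣ)) • b i := by
    intro i r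
    rw [hb, lg, smul_smul]
  refine ⟨θ, ⟨?_, ?_, ?_, ?_, ?_⟩⟩
  · intro i a a'
    rw [hθ, hθ, hθ, Derivation.leibniz, map_add, map_smul, map_smul]
    simp only [Finsupp.add_apply, Finsupp.smul_apply, smul_eq_mul]
    ring
  · intro i j
    rw [hθ, ← hb j, Module.Basis.repr_self, Finsupp.single_apply]
    by_cases hij : i = j
    · subst hij
      simp
    · rw [if_neg hij, if_neg (fun h => hij h.symm), mul_zero]
  · intro i a ha
    rw [hθ]
    have e1 : D (ZMod p) R a = KaehlerDifferential.map (ZMod p) (ZMod p) A R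
        (D (ZMod p) A ⟨a, ha⟩) := by
      rw [KaehlerDifferential.map_D]
      rfl
    have e2 : D (ZMod p) R a = ∑ j, ((bA.repr (D (ZMod p) A ⟨a, ha⟩) j : A) : R) • b j := by
      rw [e1]
      conv_lhs => rw [← bA.sum_repr (D (ZMod p) A ⟨a, ha⟩)]
      rw [map_sum]
      refine Finset.sum_congr rfl fun j _ => ?_
      rw [map_smul, hbA, KaehlerDifferential.map_D, hb]
      rfl
    rw [e2, Module.Basis.repr_sum_self]
    exact A.mul_mem (h.t_mem i) (SetLike.coe_mem _)
  · intro a
    conv_lhs => rw [← b.sum_repr (D (ZMod p) R a)]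
    refine Finset.sum_congr rfl fun i _ => ?_
    rw [hθ, hlg, mul_comm (t i : R), mul_assoc, Units.mul_inv, mul_one]
  · intro a ha
    simp only [hlg] at ha
    have := Fintype.linearIndependent_iff.1 b.linearIndependent _ ha
    funext i
    have h1 := this i
    exact (Units.mul_left_eq_zero _).1 h1

end

end Pool.Agent.DBX.DIA2
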