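import Pool.Agent.DBX.DIA2.Stmts

/-!
# DBX, area DIA2, module FRM: forms in coordinates
-/

set_option autoImplicit false

namespace Pool.Agent.DBX.DIA2

open KaehlerDifferential Pool.Agent.DBE Pool.Agent.DBX Pool.Agent.DBX.DIB

namespace FRM_

universe u

noncomputable section

section words

variable {N : ℕ} {G : Type u} [Ring G]

/-- ordered product -/
def W (e : Fin N → G) (I : Finset (Fin N)) : G := ((I.sort (· ≤ ·)).map e).prod

theorem W_empty (e : Fin N → G) : W e ∅ = 1 := by
  unfold W
  rw [Finset.sort_empty]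
  rfl

theorem W_insert (e : Fin N → G) {a : Fin N} {s : Finset (Fin N)} (h : ∀ x ∈ s, a < x) :
    W e (insert a s) = e a * W e s := by
  unfold W
  rw [Finset.sort_insert _ (fun b hb => (h b hb).le) (fun ha => lt_irrefl _ (h a ha)),
    List.map_cons, List.prod_cons]

/-- the sign -/
def sn (I : Finset (Fin N)) (i : Fin N) : ℤ := (-1) ^ (I.filter (fun j => j < i)).card

theorem e_mul_W (e : Fin N → G) (h0 : ∀ i, e i * e i = 0) (h1 : ∀ i j, e i * e j = -(e j * e i))
    (s : Finset (Fin N)) : ∀ i, e i * W e s = if i ∈ s then 0 else sn s i • W e (insert i s) := by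
  induction s using Finset.induction_on_min with
  | empty =>
    intro i
    rw [if_neg (Finset.notMem_empty i), W_insert e (fun x hx => absurd hx (Finset.notMem_empty x))]
    unfold sn
    rw [Finset.filter_empty, Finset.card_empty, pow_zero, one_smul]
  | insert a s h ih =>
    intro i
    have has : a ∉ s := fun ha => lt_irrefl _ (h a ha)
    rcases lt_trichotomy i a with hi | hi | hi
    · have h2 : ∀ x ∈ insert a s, i < x := by
        intro x hx
        rcases Finset.mem_insert.1 hx with rfl | hx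
        · exact hi
        · exact hi.trans (h x hx)
      have h3 : i ∉ insert a s := fun hh => lt_irrefl _ (h2 i hh)
      have h4 : sn (insert a s) i = 1 := by
        unfold sn
        rw [Finset.filter_eq_empty_iff.2 (fun x hx => not_lt.2 (h2 x hx).le), Finset.card_empty,
          pow_zero]
      rw [if_neg h3, W_insert e h2, h4, one_smul]
    · subst hi
      rw [W_insert e h, ← mul_assoc, h0, zero_mul, if_pos (Finset.mem_insert_self _ _)]
    · rw [W_insert e h, ← mul_assoc, h1 i a, neg_mul, mul_assoc, ih i]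
      by_cases his : i ∈ s
      · rw [if_pos his, mul_zero, neg_zero, if_pos (Finset.mem_insert_of_mem his)]
      · have h3 : i ∉ insert a s := by
          intro hh
          rcases Finset.mem_insert.1 hh with rfl | hh
          · exact lt_irrefl _ hi
          · exact his hh
        have h5 : ∀ x ∈ insert i s, a < x := by
          intro x hx
          rcases Finset.mem_insert.1 hx with rfl | hx
          · exact hi
          · exact h x hx
        have h6 : sn (insert a s) i = - sn s i := by
          unfold sn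
          rw [Finset.filter_insert, if_pos hi, Finset.card_insert_of_notMem, pow_succ]
          · ring
          · intro hh
            exact has (Finset.mem_filter.1 hh).1
        rw [if_neg his, if_neg h3, mul_smul_comm, Finset.insert_comm, W_insert e h5, h6, neg_smul]

end words

section co

variable {N : ℕ} {R : Type u} [CommRing R] {G : Type u} [Ring G] [Algebra R G]

/-- sum of the words with coefficients -/
def cw (e : Fin N → G) (a : Finset (Fin N) → R) : G := ∑ I, a I • W e I

/-- left multiplication by `e i` in coordinates -/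
def lm (i : Fin N) (a : Finset (Fin N) → R) (J : Finset (Fin N)) : R :=
  if i ∈ J then sn J i • a (J.erase i) else 0

theorem e_mul_cw (e : Fin N → G) (h0 : ∀ i, e i * e i = 0)
    (h1 : ∀ i j, e i * e j = -(e j * e i)) (i : Fin N) (a : Finset (Fin N) → R) :
    e i * cw e a = cw e (lm i a) := by
  unfold cw lm
  rw [Finset.mul_sum]
  have h2 : ∀ I : Finset (Fin N), e i * a I • W e I =
      if i ∈ I then 0 else (sn I i • a I) • W e (insert i I) := by
    intro I
    rw [mul_smul_comm, e_mul_W e h0 h1]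
    split_ifs
    · exact smul_zero _
    · rw [smul_comm, smul_assoc]
  have h3 : ∀ J : Finset (Fin N), (if i ∈ J then sn J i • a (J.erase i) else 0) • W e J =
      if i ∈ J then (sn J i • a (J.erase i)) • W e J else 0 := by
    intro J
    split_ifs
    · rfl
    · exact zero_smul _ _
  rw [Finset.sum_congr rfl (fun I _ => h2 I), Finset.sum_congr rfl (fun J _ => h3 J)]
  have h4 : ∑ I : Finset (Fin N), (if i ∈ I then (0 : G) else (sn I i • a I) • W e (insert i I)) =
      ∑ I ∈ Finset.univ.filter (fun I : Finset (Fin N) => i ∉ I),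
        (sn I i • a I) • W e (insert i I) := by
    rw [Finset.sum_filter]
    refine Finset.sum_congr rfl (fun I _ => ?_)
    by_cases h : i ∈ I
    · rw [if_pos h, if_neg (not_not.2 h)]
    · rw [if_neg h, if_pos h]
  rw [h4, ← Finset.sum_filter]
  refine Finset.sum_bij' (fun I _ => insert i I) (fun J _ => J.erase i) ?_ ?_ ?_ ?_ ?_
  · intro I hI
    exact Finset.mem_filter.2 ⟨Finset.mem_univ _, Finset.mem_insert_self _ _⟩
  · intro J hJ
    exact Finset.mem_filter.2 ⟨Finset.mem_univ _, Finset.notMem_erase _ _⟩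
  · intro I hI
    exact Finset.erase_insert (Finset.mem_filter.1 hI).2
  · intro J hJ
    exact Finset.insert_erase (Finset.mem_filter.1 hJ).2
  · intro I hI
    have hiI := (Finset.mem_filter.1 hI).2
    have h5 : sn (insert i I) i = sn I i := by
      unfold sn
      rw [Finset.filter_insert, if_neg (lt_irrefl i)]
    rw [h5, Finset.erase_insert hiI]

theorem cw_add (e : Fin N → G) (a b : Finset (Fin N) → R) : cw e (a + b) = cw e a + cw e b := by
  unfold cw
  rw [← Finset.sum_add_distrib]
  exact Finset.sum_congr rfl (fun I _ => add_smul _ _ _)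

theorem cw_smul (e : Fin N → G) (r : R) (a : Finset (Fin N) → R) :
    cw e (fun I => r * a I) = r • cw e a := by
  unfold cw
  rw [Finset.smul_sum]
  exact Finset.sum_congr rfl (fun I _ => mul_smul _ _ _)

theorem cw_sum (e : Fin N → G) {ι : Type} (s : Finset ι) (a : ι → Finset (Fin N) → R) :
    cw e (∑ i ∈ s, a i) = ∑ i ∈ s, cw e (a i) := by
  unfold cw
  rw [Finset.sum_comm]
  refine Finset.sum_congr rfl (fun I _ => ?_)
  rw [Finset.sum_apply, Finset.sum_smul]

/-- `cw` as a linear map -/
def cwL (e : Fin N → G) : (Finset (Fin N) → R) →ₗ[R] G where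
  toFun := cw e
  map_add' := cw_add e
  map_smul' := fun r a => cw_smul e r a

theorem one_eq_cw (e : Fin N → G) : (1 : G) = cw e (fun I => if I = ∅ then (1 : R) else 0) := by
  unfold cw
  rw [Finset.sum_eq_single ∅]
  · show (1 : G) = (if (∅ : Finset (Fin N)) = ∅ then (1 : R) else 0) • W e ∅
    rw [if_pos rfl, one_smul, W_empty]
  · intro I _ hI
    show (if I = ∅ then (1 : R) else 0) • W e I = 0
    rw [if_neg hI, zero_smul]
  · intro h
    exact absurd (Finset.mem_univ _) h

theorem kd_eq_lm (θ : Fin N → R →+ R) (a : Finset (Fin N) → R) :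
    kd θ a = ∑ i, lm i (fun I => θ i (a I)) := by
  funext J
  rw [Finset.sum_apply]
  unfold kd lm
  rw [← Finset.sum_filter]
  refine Finset.sum_congr ?_ (fun i _ => rfl)
  ext i
  simp

end co

section DRs

variable {p : ℕ} {N : ℕ} {R : Type u} [CommRing R] [Algebra (ZMod p) R]

/-- the one-forms `dlog t i` -/
def ee (t : Fin N → Rˣ) (i : Fin N) : DR (ZMod p) R := one (ZMod p) R (lg (p := p) (t i))

theorem ee_sq (t : Fin N → Rˣ) (i : Fin N) : ee (p := p) t i * ee t i = 0 :=
  ExteriorAlgebra.ι_sq_zero _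

theorem ee_swap (t : Fin N → Rˣ) (i j : Fin N) :
    ee (p := p) t i * ee t j = -(ee t j * ee t i) :=
  eq_neg_of_add_eq_zero_left (ExteriorAlgebra.ι_add_mul_swap _ _)

theorem ee_eq (t : Fin N → Rˣ) (i : Fin N) :
    ee (p := p) t i = fn (ZMod p) R ((t i)⁻¹ : Rˣ) * DBE.dd (ZMod p) R (t i : R) := by
  unfold ee lg
  rw [one, map_smul, Algebra.smul_def]
  rfl

theorem dR_ee (t : Fin N → Rˣ) (i : Fin N) : dR (ZMod p) R (ee (p := p) t i) = 0 := by
  rw [ee_eq, dR_fn_mul, dR_dd, mul_zero, add_zero]
  have h1 : DBE.dd (ZMod p) R ((t i : R) * ((t i)⁻¹ : Rˣ)) = 0 := by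
    rw [Units.mul_inv]
    have := dd_algebraMap (B := ZMod p) (R := R) 1
    rw [map_one] at this
    exact this
  rw [dd_mul] at h1
  -- t * d(t⁻¹) = - t⁻¹ dt
  have h2 : fn (ZMod p) R (t i : R) * DBE.dd (ZMod p) R ((t i)⁻¹ : Rˣ) =
      - (fn (ZMod p) R ((t i)⁻¹ : Rˣ) * DBE.dd (ZMod p) R (t i : R)) := eq_neg_of_add_eq_zero_left h1
  have h3 : DBE.dd (ZMod p) R ((t i)⁻¹ : Rˣ) = fn (ZMod p) R ((t i)⁻¹ : Rˣ) *
      (fn (ZMod p) R (t i : R) * DBE.dd (ZMod p) R ((t i)⁻¹ : Rˣ)) := by
    rw [← mul_assoc, ← map_mul, Units.inv_mul, map_one, one_mul]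
  rw [h3, h2, mul_assoc, neg_mul, mul_assoc, dd_sq, mul_zero, neg_zero, mul_zero]

theorem dR_W (t : Fin N → Rˣ) (I : Finset (Fin N)) :
    dR (ZMod p) R (W (ee (p := p) t) I) = 0 := by
  induction I using Finset.induction_on_min with
  | empty => rw [W_empty]; exact dR_one
  | insert a s h ih => rw [W_insert _ h, dR_mul, dR_ee, zero_mul, ih, mul_zero, add_zero]

variable {A : Subalgebra (ZMod p) R} {t : Fin N → Rˣ} {θ : Fin N → R →+ R}

theorem span_lg (h : IsTh A t θ) :
    ⊤ ≤ Submodule.span R (Set.range (fun i => lg (p := p) (t i))) := by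
  rw [← KaehlerDifferential.span_range_derivation (ZMod p) R, Submodule.span_le]
  rintro _ ⟨a, rfl⟩
  rw [h.D_eq]
  exact Submodule.sum_mem _ (fun i _ => Submodule.smul_mem _ _ (Submodule.subset_span ⟨i, rfl⟩))

/-- the basis -/
def bas (h : IsTh A t θ) : Module.Basis (Fin N) R (Ω[R⁄ZMod p]) :=
  Module.Basis.mk (Fintype.linearIndependent_iff.2 (fun g hg i => congrFun (h.indep g hg) i))
    (span_lg h)

theorem cw_surj (h : IsTh A t θ) :
    Function.Surjective (cwL (R := R) (ee (p := p) t)) := by
  have h0 : ∀ i, ee (p := p) t i * ee t i = 0 := ee_sq t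
  have h1 : ∀ i j, ee (p := p) t i * ee t j = -(ee t j * ee t i) := ee_swap t
  have hi : ∀ i, ∀ x ∈ LinearMap.range (cwL (R := R) (ee (p := p) t)),
      ee (p := p) t i * x ∈ LinearMap.range (cwL (R := R) (ee (p := p) t)) := by
    rintro i _ ⟨a, rfl⟩
    exact ⟨lm i a, (e_mul_cw (ee t) h0 h1 i a).symm⟩
  have hd : ∀ a, ∀ x ∈ LinearMap.range (cwL (R := R) (ee (p := p) t)),
      DBE.dd (ZMod p) R a * x ∈ LinearMap.range (cwL (R := R) (ee (p := p) t)) := by
    intro a x hx
    have e1 : DBE.dd (ZMod p) R a = ∑ i, θ i a • ee (p := p) t i := by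
      rw [dd_def, h.D_eq, map_sum]
      exact Finset.sum_congr rfl (fun i _ => map_smul _ _ _)
    rw [e1, Finset.sum_mul]
    refine Submodule.sum_mem _ (fun i _ => ?_)
    rw [smul_mul_assoc]
    exact Submodule.smul_mem _ _ (hi i x hx)
  intro x
  rw [← LinearMap.mem_range]
  induction x using DR_induction with
  | hf a =>
    have e2 : fn (ZMod p) R a = a • (1 : DR (ZMod p) R) := by
      rw [Algebra.smul_def, mul_one]
    rw [e2]
    exact Submodule.smul_mem _ _ ⟨_, (one_eq_cw (R := R) (ee (p := p) t)).symm⟩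
  | hm a x hx => exact hd a x hx
  | hs a x hx =>
    rw [← Algebra.smul_def]
    exact Submodule.smul_mem _ _ hx
  | ha x y hx hy => exact Submodule.add_mem _ hx hy

theorem cw_inj (h : IsTh A t θ) :
    Function.Injective (cwL (R := R) (ee (p := p) t)) := by
  have h1 : Function.Surjective
      (((bas h).ExteriorAlgebra.equivFun : DR (ZMod p) R ≃ₗ[R] (Finset (Fin N) → R)).toLinearMap ∘ₗ
        cwL (R := R) (ee (p := p) t)) := by
    rw [LinearMap.coe_comp]
    exact (LinearEquiv.surjective _).comp (cw_surj h)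
  have h2 := OrzechProperty.injective_of_surjective_endomorphism _ h1
  rw [LinearMap.coe_comp] at h2
  exact h2.of_comp

/-- coordinates -/
def cwE (h : IsTh A t θ) : (Finset (Fin N) → R) ≃ₗ[R] DR (ZMod p) R :=
  LinearEquiv.ofBijective (cwL (R := R) (ee (p := p) t)) ⟨cw_inj h, cw_surj h⟩

theorem cwE_apply (h : IsTh A t θ) (a : Finset (Fin N) → R) :
    cwE h a = cw (ee (p := p) t) a := rfl

theorem W_mem_LM (I : Finset (Fin N)) : W (ee (p := p) t) I ∈ LM A t := by
  induction I using Finset.induction_on_min with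
  | empty => rw [W_empty]; exact Subring.one_mem _
  | insert a s h ih =>
    rw [W_insert _ h]
    exact Subring.mul_mem _ (Subring.subset_closure (Or.inr ⟨a, rfl⟩)) ih

theorem lm_mem {i : Fin N} {a : Finset (Fin N) → R} (ha : ∀ I, a I ∈ A) (J : Finset (Fin N)) :
    lm i a J ∈ A := by
  unfold lm
  split_ifs
  · exact A.zsmul_mem (ha _) _
  · exact A.zero_mem

theorem LM_mul (x : DR (ZMod p) R) (hx : x ∈ LM A t) (a : Finset (Fin N) → R)
    (ha : ∀ I, a I ∈ A) : ∃ b : Finset (Fin N) → R, (∀ I, b I ∈ A) ∧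
      x * cw (ee (p := p) t) a = cw (ee (p := p) t) b := by
  unfold LM at hx
  induction hx using Subring.closure_induction generalizing a with
  | mem x hx =>
    rcases hx with ⟨r, hr, rfl⟩ | ⟨i, rfl⟩
    · refine ⟨fun I => r * a I, fun I => A.mul_mem hr (ha I), ?_⟩
      rw [cw_smul, Algebra.smul_def]
    · exact ⟨lm i a, lm_mem ha, e_mul_cw (ee t) (ee_sq t) (ee_swap t) i a⟩
  | zero =>
    refine ⟨0, fun I => A.zero_mem, ?_⟩
    rw [zero_mul]
    exact ((cwL (R := R) (ee (p := p) t)).map_zero).symm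
  | one => exact ⟨a, ha, one_mul _⟩
  | add x y _ _ hx hy =>
    obtain ⟨b, hb, hb'⟩ := hx a ha
    obtain ⟨c, hc, hc'⟩ := hy a ha
    refine ⟨b + c, fun I => A.add_mem (hb I) (hc I), ?_⟩
    rw [add_mul, hb', hc', cw_add]
  | neg x _ hx =>
    obtain ⟨b, hb, hb'⟩ := hx a ha
    refine ⟨-b, fun I => A.neg_mem (hb I), ?_⟩
    rw [neg_mul, hb']
    exact ((cwL (R := R) (ee (p := p) t)).map_neg b).symm
  | mul x y _ _ hx hy =>
    obtain ⟨b, hb, hb'⟩ := hy a ha
    obtain ⟨c, hc, hc'⟩ := hx b hb
    exact ⟨c, hc, by rw [mul_assoc, hb', hc']⟩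

end DRs

end

end FRM_

open FRM_ in
theorem frm_proof.{v} : Stmt_FRM.{v} := by
  intro p _ N R _ _ _ A t hC θ h
  refine ⟨(cwE h).toAddEquiv, ?_, ?_, ?_, ?_⟩
  · intro a
    show dR (ZMod p) R (cw (ee (p := p) t) a) = cw (ee (p := p) t) (kd θ a)
    rw [kd_eq_lm, cw_sum]
    have h1 : ∀ i : Fin N, cw (ee (p := p) t) (lm i (fun I => θ i (a I))) =
        ee (p := p) t i * cw (ee (p := p) t) (fun I => θ i (a I)) := fun i =>
      (e_mul_cw (ee t) (ee_sq t) (ee_swap t) i _).symm
    rw [Finset.sum_congr rfl (fun i _ => h1 i)]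
    unfold cw
    rw [map_sum]
    have h2 : ∀ I : Finset (Fin N), dR (ZMod p) R (a I • W (ee (p := p) t) I) =
        ∑ i, ee (p := p) t i * (θ i (a I) • W (ee (p := p) t) I) := by
      intro I
      rw [Algebra.smul_def]
      show dR (ZMod p) R (fn (ZMod p) R (a I) * W (ee (p := p) t) I) = _
      rw [dR_fn_mul, dR_W, mul_zero, add_zero, dd_def, h.D_eq, map_sum, Finset.sum_mul]
      refine Finset.sum_congr rfl (fun i _ => ?_)
      rw [map_smul, smul_mul_assoc, mul_smul_comm]
      rfl
    rw [Finset.sum_congr rfl (fun I _ => h2 I), Finset.sum_comm]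
    refine Finset.sum_congr rfl (fun i _ => ?_)
    rw [Finset.mul_sum]
  · intro r a
    show fn (ZMod p) R r * cw (ee (p := p) t) a = cw (ee (p := p) t) (fun I => r * a I)
    rw [cw_smul, Algebra.smul_def]
  · intro a
    show cw (ee (p := p) t) a ∈ LM A t ↔ ∀ I, a I ∈ A
    constructor
    · intro hx
      obtain ⟨b, hb, hb'⟩ := LM_mul _ hx (fun I => if I = ∅ then (1 : R) else 0) (fun I => by
        show (if I = ∅ then (1 : R) else 0) ∈ A
        split_ifs
        · exact A.one_mem
        · exact A.zero_mem)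
      rw [← one_eq_cw, mul_one] at hb'
      have h3 : a = b := cw_inj h hb'
      rw [h3]
      exact hb
    · intro ha
      unfold cw
      refine Subring.sum_mem _ (fun I _ => ?_)
      rw [Algebra.smul_def]
      exact Subring.mul_mem _ (Subring.subset_closure (Or.inl ⟨a I, ha I, rfl⟩)) (W_mem_LM I)
  · intro θ' Λ _ h2 h3 h4 a
    show Λ (cw (ee (p := p) t) a) = cw (ee (p := p) t) (fun I => a I ^ p)
    have hW : ∀ I : Finset (Fin N), Λ (W (ee (p := p) t) I) = W (ee (p := p) t) I := by
      intro I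
      induction I using Finset.induction_on_min with
      | empty => rw [W_empty, map_one]
      | insert a s h ih =>
        rw [W_insert _ h, map_mul, ih]
        congr 1
        show Λ (one (ZMod p) R (lg (t a))) = one (ZMod p) R (lg (t a))
        rw [h4, h2]
    unfold cw
    rw [map_sum]
    refine Finset.sum_congr rfl (fun I _ => ?_)
    rw [Algebra.smul_def, Algebra.smul_def, map_mul, hW]
    congr 1
    exact h3 (a I)

end Pool.Agent.DBX.DIA2
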