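import Pool.Agent.DBX.DIA2.Stmts
import Pool.Agent.DBX.Cd

set_option autoImplicit false

namespace Pool.Agent.DBX.DIA2

open KaehlerDifferential Pool.Agent.DBE Pool.Agent.DBX Pool.Agent.DBX.DIB

universe u

namespace KOH_

theorem kd_eq {N : ℕ} {G : Type u} [AddCommGroup G] (θ : Fin N → G →+ G) (a : Finset (Fin N) → G)
    (J : Finset (Fin N)) : kd θ a J = ∑ i ∈ J, Pool.Agent.DBX.sg J i • θ i (a (J.erase i)) := rfl

theorem kd_kd {N : ℕ} {G : Type u} [AddCommGroup G] (θ : Fin N → G →+ G)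
    (hθ : ∀ i j x, θ i (θ j x) = θ j (θ i x)) (a : Finset (Fin N) → G) :
    kd θ (kd θ a) = 0 := by
  funext σ
  rw [kd_eq, Pi.zero_apply]
  have h1 : ∀ u ∈ σ, Pool.Agent.DBX.sg σ u • θ u (kd θ a (σ.erase u)) =
      ∑ v ∈ σ.erase u, (Pool.Agent.DBX.sg σ u * Pool.Agent.DBX.sg (σ.erase u) v) •
        θ u (θ v (a ((σ.erase u).erase v))) := by
    intro u _
    rw [kd_eq, map_sum, Finset.smul_sum]
    exact Finset.sum_congr rfl (fun v _ => by rw [map_zsmul, smul_smul])
  rw [Finset.sum_congr rfl h1, Finset.sum_sigma']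
  refine Finset.sum_involution (fun p _ => ⟨p.2, p.1⟩) ?_ ?_ ?_ ?_
  · rintro ⟨u, v⟩ hp
    simp only [Finset.mem_sigma, Finset.mem_erase] at hp
    obtain ⟨hu, hvu, hv⟩ := hp
    dsimp only
    rw [sg_rule hu hv (Ne.symm hvu), Finset.erase_right_comm, neg_smul, hθ v u]
    simp
  · rintro ⟨u, v⟩ hp _ h
    simp only [Finset.mem_sigma, Finset.mem_erase] at hp
    obtain ⟨hu, hvu, hv⟩ := hp
    simp only [Sigma.mk.injEq] at h
    exact hvu h.1
  · rintro ⟨u, v⟩ hp
    simp only [Finset.mem_sigma, Finset.mem_erase] at hp ⊢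
    obtain ⟨hu, hvu, hv⟩ := hp
    exact ⟨hv, Ne.symm hvu, hu⟩
  · rintro ⟨u, v⟩ _
    rfl

theorem sign {N : ℕ} {J : Finset (Fin N)} {i u : Fin N} (hi : i ∈ J) (hu : u ∉ J) :
    Pool.Agent.DBX.sg J i * Pool.Agent.DBX.sg (J.erase i) u +
      Pool.Agent.DBX.sg J u * Pool.Agent.DBX.sg (insert u J) i = 0 := by
  have hiu : i ≠ u := fun h => hu (h ▸ hi)
  have h1 := sg_rule (σ := insert u J) (u := u) (v := i) (Finset.mem_insert_self _ _)
    (Finset.mem_insert_of_mem hi) (Ne.symm hiu)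
  rw [Finset.erase_insert hu, sg_insert_ge hu le_rfl, Finset.erase_insert_of_ne hiu.symm,
    sg_insert_ge (fun h => hu (Finset.mem_of_mem_erase h)) le_rfl] at h1
  have h2 := sg_mul_self J u
  have h3 := sg_mul_self (J.erase i) u
  have h4 : Pool.Agent.DBX.sg J i * Pool.Agent.DBX.sg (J.erase i) u =
      (Pool.Agent.DBX.sg J u * Pool.Agent.DBX.sg J u) * (Pool.Agent.DBX.sg J i *
        Pool.Agent.DBX.sg (J.erase i) u) := by rw [h2, one_mul]
  rw [h4, show (Pool.Agent.DBX.sg J u * Pool.Agent.DBX.sg J u) * (Pool.Agent.DBX.sg J i *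
        Pool.Agent.DBX.sg (J.erase i) u) = (Pool.Agent.DBX.sg J u * Pool.Agent.DBX.sg J i) *
        (Pool.Agent.DBX.sg J u * Pool.Agent.DBX.sg (J.erase i) u) by ring, h1,
    show -(Pool.Agent.DBX.sg (insert u J) i * Pool.Agent.DBX.sg (J.erase i) u) *
      (Pool.Agent.DBX.sg J u * Pool.Agent.DBX.sg (J.erase i) u) =
      - (Pool.Agent.DBX.sg J u * Pool.Agent.DBX.sg (insert u J) i) *
      (Pool.Agent.DBX.sg (J.erase i) u * Pool.Agent.DBX.sg (J.erase i) u) by ring, h3]
  ring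

end KOH_

open KOH_ in
theorem koh_proof : Stmt_KOH.{u} := by
  intro N G _ θ hθ
  refine ⟨kd_kd θ hθ, ?_⟩
  intro u a J
  have hk : ∀ I : Finset (Fin N), (if u ∈ I then 0 else
        ((-1 : ℤ) ^ (I.filter (fun j => j < u)).card) • a (insert u I)) =
      if u ∈ I then 0 else Pool.Agent.DBX.sg I u • a (insert u I) := fun _ => rfl
  rw [kd_eq]
  by_cases hu : u ∈ J
  · rw [if_pos hu, add_zero, Finset.sum_eq_single u]
    · rw [if_neg (Finset.notMem_erase u J), Finset.insert_erase hu, map_zsmul, smul_smul]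
      have : ((-1 : ℤ) ^ ((J.erase u).filter (fun j => j < u)).card) =
        Pool.Agent.DBX.sg (J.erase u) u := rfl
      rw [this, sg_erase_ge le_rfl, sg_mul_self, one_smul]
    · intro i _ hiu
      rw [if_pos (Finset.mem_erase.mpr ⟨Ne.symm hiu, hu⟩), map_zero, smul_zero]
    · intro h
      exact absurd hu h
  · rw [if_neg hu, kd_eq, Finset.sum_insert hu, Finset.erase_insert hu, smul_add, smul_smul]
    have e1 : ((-1 : ℤ) ^ (J.filter (fun j => j < u)).card) = Pool.Agent.DBX.sg J u := rfl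
    rw [e1, sg_insert_ge hu le_rfl, sg_mul_self, one_smul, Finset.smul_sum]
    have e2 : ∀ i ∈ J, Pool.Agent.DBX.sg J i • θ i (if u ∈ J.erase i then 0 else
        ((-1 : ℤ) ^ ((J.erase i).filter (fun j => j < u)).card) • a (insert u (J.erase i))) =
        (Pool.Agent.DBX.sg J i * Pool.Agent.DBX.sg (J.erase i) u) •
          θ i (a (insert u (J.erase i))) := by
      intro i _
      rw [if_neg (fun h => hu (Finset.mem_of_mem_erase h)), map_zsmul, smul_smul]
      rfl
    have e3 : ∀ i ∈ J, Pool.Agent.DBX.sg J u • Pool.Agent.DBX.sg (insert u J) i •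
        θ i (a ((insert u J).erase i)) =
        (Pool.Agent.DBX.sg J u * Pool.Agent.DBX.sg (insert u J) i) •
          θ i (a (insert u (J.erase i))) := by
      intro i hi
      have hiu : u ≠ i := fun h => hu (h ▸ hi)
      rw [smul_smul, Finset.erase_insert_of_ne hiu]
    rw [Finset.sum_congr rfl e2, Finset.sum_congr rfl e3, add_comm (θ u (a J)), ← add_assoc,
      ← Finset.sum_add_distrib, Finset.sum_eq_zero, zero_add]
    intro i hi
    rw [← add_smul, sign hi hu, zero_smul]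

end Pool.Agent.DBX.DIA2
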