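import Pool.Agent.DBX.DIA2.Stmts

/-!
# DBX, area DIA2, module KOS: cohomology of the Koszul complex of commuting semisimple operators
-/

set_option autoImplicit false

namespace Pool.Agent.DBX.DIA2

open KaehlerDifferential Pool.Agent.DBE Pool.Agent.DBX Pool.Agent.DBX.DIB

universe u

noncomputable section

namespace KOS_

variable {N : ℕ} {G : Type u} [AddCommGroup G] (θ : Fin N → G →+ G)

theorem kd_sub (a b : Finset (Fin N) → G) (J : Finset (Fin N)) :
    kd θ (fun I => a I - b I) J = kd θ a J - kd θ b J := by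
  unfold kd
  rw [← Finset.sum_sub_distrib]
  refine Finset.sum_congr rfl fun i _ => ?_
  rw [map_sub, smul_sub]

theorem kd_add (a b : Finset (Fin N) → G) (J : Finset (Fin N)) :
    kd θ (fun I => a I + b I) J = kd θ a J + kd θ b J := by
  unfold kd
  rw [← Finset.sum_add_distrib]
  refine Finset.sum_congr rfl fun i _ => ?_
  rw [map_add, smul_add]

theorem kd_map (hc : ∀ i j x, θ i (θ j x) = θ j (θ i x)) (φ : G →+ G)
    (hφ : ∀ j x, φ (θ j x) = θ j (φ x)) (a : Finset (Fin N) → G) (J : Finset (Fin N)) :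
    kd θ (fun I => φ (a I)) J = φ (kd θ a J) := by
  have _ := hc
  unfold kd
  rw [map_sum]
  refine Finset.sum_congr rfl fun i _ => ?_
  rw [map_zsmul, hφ]

/-- iterates of an additive map -/
def pw (φ : G →+ G) : ℕ → G →+ G
  | 0 => AddMonoidHom.id G
  | k + 1 => φ.comp (pw φ k)

theorem pw_apply (φ : G →+ G) (k : ℕ) (x : G) : pw φ k x = φ^[k] x := by
  induction k with
  | zero => rfl
  | succ k ih =>
    rw [Function.iterate_succ_apply', ← ih]
    rfl

theorem pw_succ (φ : G →+ G) (k : ℕ) (x : G) : pw φ (k + 1) x = φ (pw φ k x) := rfl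

theorem pw_comm (φ ψ : G →+ G) (h : ∀ x, φ (ψ x) = ψ (φ x)) (k : ℕ) (x : G) :
    pw φ k (ψ x) = ψ (pw φ k x) := by
  induction k with
  | zero => rfl
  | succ k ih => rw [pw_succ, pw_succ, ih, h]

theorem pw_mem (φ : G →+ G) (U : AddSubgroup G) (h : ∀ x ∈ U, φ x ∈ U) (k : ℕ) {x : G}
    (hx : x ∈ U) : pw φ k x ∈ U := by
  induction k with
  | zero => exact hx
  | succ k ih => exact h _ ih

end KOS_

open KOS_

theorem kos_proof.{v} (hKOH : Stmt_KOH.{v}) : Stmt_KOS.{v} := by
  intro p hp N G _ θ U hc hU hs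
  obtain ⟨hkk, hhom⟩ := hKOH N G θ hc
  have hp2 : 2 ≤ p := hp.out.two_le
  obtain ⟨q, rfl⟩ : ∃ q, p = q + 2 := ⟨p - 2, by omega⟩
  have hs' : ∀ i, ∀ x ∈ U, pw (θ i) (q + 2) x = θ i x := fun i x hx => by
    rw [pw_apply]
    exact hs i x hx
  constructor
  · intro a haU ha
    have key : ∀ S : Finset (Fin N), ∃ b : Finset (Fin N) → G, (∀ J, b J ∈ U) ∧
        ∀ J, ∀ i ∈ S, θ i (a J - kd θ b J) = 0 := by
      intro S
      induction S using Finset.induction_on with
      | empty =>
        refine ⟨fun _ => 0, fun _ => U.zero_mem, ?_⟩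
        intro J i hi
        exact absurd hi (Finset.notMem_empty i)
      | insert u S hu ih =>
        obtain ⟨b, hbU, hb⟩ := ih
        -- a1 = a - kd b
        have hkdU : ∀ b : Finset (Fin N) → G, (∀ J, b J ∈ U) → ∀ J, kd θ b J ∈ U := by
          intro b hb J
          refine AddSubgroup.sum_mem _ fun i _ => AddSubgroup.zsmul_mem _ (hU i _ (hb _)) _
        set a1 : Finset (Fin N) → G := fun J => a J - kd θ b J with ha1
        have ha1U : ∀ J, a1 J ∈ U := fun J => U.sub_mem (haU J) (hkdU b hbU J)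
        have ha1c : ∀ J, kd θ a1 J = 0 := by
          intro J
          rw [ha1, kd_sub, ha, hkk b]
          simp
        -- a2 = θ^(p-2) a1
        set a2 : Finset (Fin N) → G := fun J => pw (θ u) q (a1 J) with ha2
        have ha2U : ∀ J, a2 J ∈ U := fun J => pw_mem (θ u) U (hU u) q (ha1U J)
        have hcu : ∀ j x, pw (θ u) q (θ j x) = θ j (pw (θ u) q x) := fun j x =>
          pw_comm (θ u) (θ j) (fun x => hc u j x) q x
        have ha2c : ∀ J, kd θ a2 J = 0 := by
          intro J
          rw [ha2, kd_map θ hc (pw (θ u) q) hcu a1 J, ha1c, map_zero]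
        set b1 : Finset (Fin N) → G := fun I => if u ∈ I then 0 else
          ((-1 : ℤ) ^ (I.filter (fun j => j < u)).card) • a2 (insert u I) with hb1
        have hb1U : ∀ J, b1 J ∈ U := by
          intro J
          simp only [hb1]
          split_ifs
          · exact U.zero_mem
          · exact AddSubgroup.zsmul_mem _ (ha2U _) _
        have hkb1 : ∀ J, kd θ b1 J = θ u (a2 J) := by
          intro J
          have h1 := hhom u a2 J
          rw [ha2c, smul_zero, ite_self, add_zero] at h1
          exact h1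
        refine ⟨fun J => b J + b1 J, fun J => U.add_mem (hbU J) (hb1U J), ?_⟩
        intro J i hi
        have h2 : a J - kd θ (fun J => b J + b1 J) J = a1 J - pw (θ u) (q + 1) (a1 J) := by
          rw [kd_add, hkb1, pw_succ]
          simp only [ha1, ha2]
          abel
        rw [h2, map_sub]
        rcases Finset.mem_insert.1 hi with h3 | h3
        · rw [h3, ← pw_succ, hs' u _ (ha1U J), sub_self]
        · have h4 : θ i (pw (θ u) (q + 1) (a1 J)) = pw (θ u) (q + 1) (θ i (a1 J)) :=
            (pw_comm (θ u) (θ i) (fun x => hc u i x) (q + 1) (a1 J)).symm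
          have h5 : θ i (a1 J) = 0 := hb J i h3
          rw [h4, h5, map_zero, sub_zero]
    obtain ⟨b, hbU, hb⟩ := key Finset.univ
    exact ⟨b, hbU, fun J i => hb J i (Finset.mem_univ i)⟩
  · intro a b haU hbU hθ hab
    have key : ∀ S : Finset (Fin N), ∃ b' : Finset (Fin N) → G, (∀ J, b' J ∈ U) ∧
        (∀ J, a J = kd θ b' J) ∧ ∀ J, ∀ i ∈ S, θ i (b' J) = 0 := by
      intro S
      induction S using Finset.induction_on with
      | empty =>
        refine ⟨b, hbU, fun J => by rw [hab], ?_⟩
        intro J i hi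
        exact absurd hi (Finset.notMem_empty i)
      | insert u S hu ih =>
        obtain ⟨b', hb'U, hb', hb'0⟩ := ih
        have hcu : ∀ j x, pw (θ u) (q + 1) (θ j x) = θ j (pw (θ u) (q + 1) x) := fun j x =>
          pw_comm (θ u) (θ j) (fun x => hc u j x) (q + 1) x
        refine ⟨fun J => b' J - pw (θ u) (q + 1) (b' J), fun J =>
          U.sub_mem (hb'U J) (pw_mem (θ u) U (hU u) (q + 1) (hb'U J)), ?_, ?_⟩
        · intro J
          rw [kd_sub, kd_map θ hc (pw (θ u) (q + 1)) hcu b' J, ← hb' J]
          have h1 : pw (θ u) (q + 1) (a J) = 0 := by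
            have h2 : pw (θ u) (q + 1) (a J) = pw (θ u) q (θ u (a J)) := by
              rw [pw_succ, pw_comm (θ u) (θ u) (fun _ => rfl)]
            rw [h2, hθ u J, map_zero]
          rw [h1, sub_zero]
        · intro J i hi
          rw [map_sub]
          rcases Finset.mem_insert.1 hi with h3 | h3
          · rw [h3, ← pw_succ, hs' u _ (hb'U J), sub_self]
          · rw [← hcu, hb'0 J i h3, map_zero, sub_zero]
    obtain ⟨b', hb'U, hb', hb'0⟩ := key Finset.univ
    funext J
    rw [hb' J]
    unfold kd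
    refine Finset.sum_eq_zero fun i _ => ?_
    rw [hb'0 _ i (Finset.mem_univ i), smul_zero]

end

end Pool.Agent.DBX.DIA2
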