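import Pool.Agent.DBX.DIA2.Stmts

/-!
# DBX, area DIA2, module PBI: uniqueness of `p`-basis expansions in étale algebras
-/

set_option autoImplicit false

namespace Pool.Agent.DBX.DIA2

open KaehlerDifferential Pool.Agent.DBE Pool.Agent.DBX Pool.Agent.DBX.DIB

namespace PBI_

open TensorProduct

universe u

/-- extension of a derivation along a formally étale map -/
theorem ext_der {k : Type} {P : Type} {A : Type u} [CommRing k] [CommRing P] [CommRing A]
    [Algebra k P] [Algebra k A] [Algebra P A] [IsScalarTower k P A] [Algebra.FormallyEtale P A]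
    (δ : Derivation k P A) : ∃ δ' : Derivation k A A, ∀ f, δ' (algebraMap P A f) = δ f := by
  let l : Ω[P⁄k] →ₗ[P] A := δ.liftKaehlerDifferential
  let l' : A ⊗[P] Ω[P⁄k] →ₗ[A] A := LinearMap.liftBaseChange A l
  let e := tensorKaehlerEquivOfFormallyEtale k P A
  refine ⟨(l'.comp e.symm.toLinearMap).compDer (D k A), fun f => ?_⟩
  have h1 : e.symm (D k A (algebraMap P A f)) = 1 ⊗ₜ D k P f :=
    tensorKaehlerEquivOfFormallyEtale_symm_D_algebraMap k P A f
  have : (l'.comp e.symm.toLinearMap).compDer (D k A) (algebraMap P A f) =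
      l' (e.symm (D k A (algebraMap P A f))) := rfl
  rw [this, h1]
  change LinearMap.liftBaseChange A l _ = _
  rw [LinearMap.liftBaseChange_tmul, one_smul]
  exact Derivation.liftKaehlerDifferential_comp_D δ f

/-- étale algebras over a domain are reduced -/
theorem reduced {P : Type} {A : Type u} [CommRing P] [IsDomain P] [CommRing A] [Algebra P A]
    [Algebra.Etale P A] : IsReduced A := by
  let K := FractionRing P
  have hred : IsReduced (K ⊗[P] A) := Algebra.FormallyUnramified.isReduced_of_field K (K ⊗[P] A)
  have hinj : Function.Injective (Algebra.TensorProduct.includeRight : A →ₐ[P] K ⊗[P] A) := by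
    have h := Module.Flat.rTensor_preserves_injective_linearMap (M := A)
      (Algebra.linearMap P K) (IsFractionRing.injective P K)
    intro x y hxy
    have hx : ∀ z : A, (Algebra.linearMap P K).rTensor A ((TensorProduct.lid P A).symm z) =
        (Algebra.TensorProduct.includeRight : A →ₐ[P] K ⊗[P] A) z := by
      intro z
      simp
    rw [← hx, ← hx] at hxy
    exact (TensorProduct.lid P A).symm.injective (h hxy)
  exact isReduced_of_injective (Algebra.TensorProduct.includeRight : A →ₐ[P] K ⊗[P] A) hinj

section eigen

variable {p : ℕ} [Fact p.Prime] {A : Type u} [CommRing A] [Algebra (ZMod p) A]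

/-- the projector to the eigenvalue `c` -/
noncomputable def pj (θ : Module.End (ZMod p) A) (c : ZMod p) : Module.End (ZMod p) A :=
  1 - (θ - c • 1) ^ (p - 1)

theorem pow_eig (θ : Module.End (ZMod p) A) (c g : ZMod p) (x : A) (hx : θ x = g • x) (n : ℕ) :
    ((θ - c • 1) ^ n) x = (g - c) ^ n • x := by
  induction n with
  | zero => simp
  | succ n ih =>
    rw [pow_succ', Module.End.mul_apply, ih, map_smul]
    have : (θ - c • 1) x = (g - c) • x := by
      rw [LinearMap.sub_apply, hx, LinearMap.smul_apply, Module.End.one_apply, sub_smul]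
    rw [this, smul_smul, pow_succ]

theorem pj_eig (θ : Module.End (ZMod p) A) (c g : ZMod p) (x : A) (hx : θ x = g • x) :
    pj θ c x = if g = c then x else 0 := by
  unfold pj
  rw [LinearMap.sub_apply, pow_eig θ c g x hx, Module.End.one_apply]
  split_ifs with h
  · rw [h, sub_self, zero_pow (by have := (Fact.out : p.Prime).two_le; omega), zero_smul, sub_zero]
  · rw [ZMod.pow_card_sub_one_eq_one (sub_ne_zero.mpr h), one_smul, sub_self]

end eigen

end PBI_

open PBI_ MvPolynomial in
theorem pbi_proof.{u} (hPBG : Stmt_PBG.{u}) : Stmt_PBI.{u} := by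
  intro p _ N A _ _ t het b hb
  let P := MvPolynomial (Fin N) (ZMod p)
  letI : Algebra P A := (MvPolynomial.aeval (R := ZMod p) t).toRingHom.toAlgebra
  haveI : IsScalarTower (ZMod p) P A := IsScalarTower.of_algebraMap_eq' (by
    ext x
    change _ = MvPolynomial.aeval (R := ZMod p) t (algebraMap (ZMod p) P x)
    rw [AlgHom.commutes])
  have hmap : ∀ f : P, algebraMap P A f = MvPolynomial.aeval (R := ZMod p) t f := fun f => rfl
  haveI : Algebra.Etale P A := het
  haveI : IsDomain P := inferInstance
  have hred : IsReduced A := reduced (P := P) (A := A)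
  have hchar : ∀ x : A, (p : A) * x = 0 := by
    intro x
    have : (p : A) = algebraMap (ZMod p) A (p : ZMod p) := (map_natCast _ p).symm
    rw [this, ZMod.natCast_self, map_zero, zero_mul]
  -- the derivations
  have hder : ∀ i : Fin N, ∃ δ : Derivation (ZMod p) A A, ∀ j, δ (t j) = if i = j then 1 else 0 := by
    intro i
    let δ0 : Derivation (ZMod p) P A :=
      (Algebra.linearMap P A).compDer (MvPolynomial.pderiv (R := ZMod p) i)
    obtain ⟨δ, hδ⟩ := ext_der δ0
    refine ⟨δ, fun j => ?_⟩
    have h1 := hδ (X j)
    have h2 : algebraMap P A (X j) = t j := by rw [hmap, aeval_X]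
    rw [h2] at h1
    rw [h1]
    change algebraMap P A (MvPolynomial.pderiv i (X j)) = _
    rw [MvPolynomial.pderiv_X]
    by_cases hij : i = j
    · subst hij; simp
    · rw [if_neg hij, Pi.single_eq_of_ne' hij, map_zero]
  choose δ hδ using hder
  -- monomials
  have hmon : ∀ (i : Fin N) (g : Fin N → ℕ),
      t i * δ i (∏ j, t j ^ g j) = (g i : A) * ∏ j, t j ^ g j := by
    intro i g
    have key : ∀ S : Finset (Fin N), t i * δ i (∏ j ∈ S, t j ^ g j) =
        (if i ∈ S then (g i : A) else 0) * ∏ j ∈ S, t j ^ g j := by
      intro S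
      induction S using Finset.induction_on with
      | empty => simp
      | insert j S hj ih =>
        rw [Finset.prod_insert hj, Derivation.leibniz, smul_eq_mul, smul_eq_mul, mul_add]
        have e1 : t i * (t j ^ g j * δ i (∏ j ∈ S, t j ^ g j)) =
            t j ^ g j * (t i * δ i (∏ j ∈ S, t j ^ g j)) := by ring
        rw [e1, ih, Derivation.leibniz_pow, hδ]
        by_cases hij : i = j
        · subst hij
          rw [if_neg hj, if_pos rfl, if_pos (Finset.mem_insert_self _ _)]
          rcases Nat.eq_zero_or_pos (g i) with h0 | h0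
          · simp [h0]
          · obtain ⟨m, hm⟩ := Nat.exists_eq_succ_of_ne_zero h0.ne'
            rw [hm]
            simp only [Nat.succ_eq_add_one, Nat.add_sub_cancel, nsmul_eq_mul, smul_eq_mul]
            push_cast
            ring
        · rw [if_neg hij]
          by_cases hiS : i ∈ S
          · rw [if_pos hiS, if_pos (Finset.mem_insert_of_mem hiS)]
            simp
            ring
          · rw [if_neg hiS, if_neg (by simp [hij, hiS])]
            simp
    have := key Finset.univ
    rwa [if_pos (Finset.mem_univ i)] at this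
  let θ : Fin N → Module.End (ZMod p) A := fun i =>
    (LinearMap.mulLeft (ZMod p) (t i)).comp (δ i : A →ₗ[ZMod p] A)
  let x : (Fin N → Fin p) → A := fun g => b g ^ p * ∏ i, t i ^ (g i : ℕ)
  have hθ : ∀ i g, θ i (x g) = ((g i : ℕ) : ZMod p) • x g := by
    intro i g
    change t i * δ i (b g ^ p * ∏ i, t i ^ (g i : ℕ)) = _
    rw [Derivation.leibniz, Derivation.leibniz_pow, smul_eq_mul, smul_eq_mul, mul_add]
    have e1 : t i * (b g ^ p * δ i (∏ i, t i ^ (g i : ℕ))) =
        b g ^ p * (t i * δ i (∏ i, t i ^ (g i : ℕ))) := by ring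
    have e2 : (p • (b g ^ (p - 1) • δ i (b g))) = (0 : A) := by
      rw [nsmul_eq_mul, hchar]
    rw [e1, hmon, e2, mul_zero, mul_zero, add_zero, Algebra.smul_def, map_natCast]
    ring
  -- separate the eigenvalues
  have hsep : ∀ (g0 : Fin N → Fin p) (S : Finset (Fin N)),
      ∑ g ∈ Finset.univ.filter (fun g : Fin N → Fin p => ∀ i ∈ S, g i = g0 i), x g = 0 := by
    intro g0 S
    induction S using Finset.induction_on with
    | empty => simpa using hb
    | insert i S hi ih =>
      have h1 := congrArg (pj (θ i) ((g0 i : ℕ) : ZMod p)) ih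
      rw [map_zero, map_sum] at h1
      rw [← h1, ← Finset.sum_filter_add_sum_filter_not
        (Finset.univ.filter (fun g : Fin N → Fin p => ∀ i ∈ S, g i = g0 i))
        (fun g => g i = g0 i)]
      have h2 : ∑ g ∈ (Finset.univ.filter (fun g : Fin N → Fin p =>
          ∀ i ∈ S, g i = g0 i)).filter (fun g => ¬ g i = g0 i),
          pj (θ i) ((g0 i : ℕ) : ZMod p) (x g) = 0 := by
        apply Finset.sum_eq_zero
        intro g hg
        rw [Finset.mem_filter] at hg
        rw [pj_eig _ _ _ _ (hθ i g), if_neg]
        intro h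
        apply hg.2
        apply Fin.ext
        have := (ZMod.natCast_eq_natCast_iff' _ _ _).mp h
        rwa [Nat.mod_eq_of_lt (g i).2, Nat.mod_eq_of_lt (g0 i).2] at this
      rw [h2, add_zero, Finset.filter_filter]
      apply Finset.sum_congr
      · ext g
        simp only [Finset.mem_filter, Finset.mem_univ, true_and, Finset.mem_insert,
          forall_eq_or_imp]
        tauto
      · intro g hg
        simp only [Finset.mem_filter, Finset.mem_univ, true_and, Finset.mem_insert,
          forall_eq_or_imp] at hg
        rw [pj_eig _ _ _ _ (hθ i g), if_pos (by rw [hg.2])]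
  funext g0
  have h1 : x g0 = 0 := by
    have := hsep g0 Finset.univ
    rw [Finset.sum_eq_single_of_mem g0] at this
    · exact this
    · simp
    · intro g hg hne
      exfalso
      apply hne
      funext i
      simp only [Finset.mem_filter, Finset.mem_univ, true_and, forall_true_left] at hg
      exact hg i
  -- the monomial is a nonzerodivisor
  have h2 : b g0 ^ p = 0 := by
    haveI : Module.Flat P A := inferInstance
    let f : P := ∏ i, X i ^ (g0 i : ℕ)
    have hf : f ∈ nonZeroDivisors P := by
      apply mem_nonZeroDivisors_of_ne_zero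
      exact Finset.prod_ne_zero_iff.mpr fun i _ => pow_ne_zero _ (X_ne_zero i)
    have hreg : IsSMulRegular A f := Module.Flat.isSMulRegular_of_nonZeroDivisors hf
    apply hreg
    change f • (b g0 ^ p) = f • (0 : A)
    rw [smul_zero, Algebra.smul_def, hmap, map_prod]
    have : (∏ i, (MvPolynomial.aeval (R := ZMod p) t) (X i ^ (g0 i : ℕ))) = ∏ i, t i ^ (g0 i : ℕ) := by
      apply Finset.prod_congr rfl
      intro i _
      rw [map_pow, aeval_X]
    rw [this, mul_comm]
    exact h1
  exact pow_eq_zero_iff (Fact.out : p.Prime).ne_zero |>.mp h2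

end Pool.Agent.DBX.DIA2
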