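import Pool.Agent.DBX.DIA2.Stmts

set_option autoImplicit false

/-! # DBX, area DIA2, module THC -/

namespace Pool.Agent.DBX.DIA2

open KaehlerDifferential Pool.Agent.DBE Pool.Agent.DBX Pool.Agent.DBX.DIB

namespace THC_

universe u

variable {R : Type u} [CommRing R]

lemma pow_der (θ : R →+ R) (leib : ∀ a b, θ (a * b) = a * θ b + b * θ a) (a : R) :
    ∀ n : ℕ, θ (a ^ (n + 1)) = ((n + 1 : ℕ) : R) * a ^ n * θ a := by
  intro n
  induction n with
  | zero => simp
  | succ n ih =>
    rw [pow_succ, leib, ih]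
    push_cast
    ring

/-- the commutator of two derivations as a derivation -/
noncomputable def comm (p : ℕ) [Fact p.Prime] [Algebra (ZMod p) R] (θ η : R →+ R)
    (h1 : ∀ a b, θ (a * b) = a * θ b + b * θ a) (h2 : ∀ a b, η (a * b) = a * η b + b * η a) :
    Derivation (ZMod p) R R :=
  Derivation.mk' ((θ.comp η - η.comp θ).toZModLinearMap p) (by
    intro a b
    simp only [AddMonoidHom.coe_toZModLinearMap, AddMonoidHom.sub_apply, AddMonoidHom.comp_apply,
      smul_eq_mul, h1, h2, map_add]
    ring)

lemma comm_apply (p : ℕ) [Fact p.Prime] [Algebra (ZMod p) R] (θ η : R →+ R)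
    (h1 : ∀ a b, θ (a * b) = a * θ b + b * θ a) (h2 : ∀ a b, η (a * b) = a * η b + b * η a)
    (a : R) : comm p θ η h1 h2 a = θ (η a) - η (θ a) := rfl

end THC_

theorem thc_proof.{u} : Stmt_THC.{u} := by
  intro p _ N R _ _ _ A t hC θ hT
  refine ⟨?_, ?_⟩
  · intro i a
    obtain ⟨n, hn⟩ : ∃ n, p = n + 1 := ⟨p - 1, by
      have := (Fact.out : p.Prime).pos
      omega⟩
    have h1 := THC_.pow_der (θ i) (hT.leib i) a n
    rw [← hn] at h1
    rw [h1, CharP.cast_eq_zero, zero_mul, zero_mul]
  · intro i j a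
    have h1 := THC_.comm_apply p (θ i) (θ j) (hT.leib i) (hT.leib j)
    set E := THC_.comm p (θ i) (θ j) (hT.leib i) (hT.leib j) with hE
    have h2 : ∀ k, E (t k : R) = 0 := by
      intro k
      rw [h1, hT.coord j k, hT.coord i k]
      by_cases hj : j = k
      · by_cases hi : i = k
        · rw [if_pos hj, if_pos hi, hT.coord i k, hT.coord j k, if_pos hi, if_pos hj, sub_self]
        · rw [if_pos hj, if_neg hi, hT.coord i k, if_neg hi, map_zero, sub_self]
      · by_cases hi : i = k
        · rw [if_neg hj, if_pos hi, hT.coord j k, if_neg hj, map_zero, sub_self]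
        · rw [if_neg hj, if_neg hi, map_zero, map_zero, sub_self]
    have h3 : ∀ x, E.liftKaehlerDifferential (D (ZMod p) R x) = E x := fun x =>
      Derivation.liftKaehlerDifferential_comp_D E x
    have h4 : ∀ k, E.liftKaehlerDifferential (lg (p := p) (t k)) = 0 := by
      intro k
      unfold lg
      rw [map_smul, h3, h2, smul_zero]
    have h5 : E a = 0 := by
      rw [← h3, hT.D_eq a, map_sum]
      refine Finset.sum_eq_zero fun k _ => ?_
      rw [map_smul, h4, smul_zero]
    rw [h1] at h5
    exact sub_eq_zero.1 h5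

end Pool.Agent.DBX.DIA2
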