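import Pool.Agent.DBX.DIA2.Stmts

/-!
# DBX, area DIA2, module THW: eigenvalues of the operators `θ_i` on `t^c' A`.
-/

set_option autoImplicit false

namespace Pool.Agent.DBX.DIA2

open KaehlerDifferential Pool.Agent.DBE Pool.Agent.DBX Pool.Agent.DBX.DIB

universe u

noncomputable section

namespace THW_

section

variable {p : ℕ} [Fact p.Prime] {N : ℕ} {R : Type u} [CommRing R] [Algebra (ZMod p) R] [CharP R p]
  {A : Subalgebra (ZMod p) R} {t : Fin N → Rˣ}

omit [Fact p.Prime] [Algebra (ZMod p) R] [CharP R p] in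
theorem mon_add (c d : Fin N → ℕ) : mon t (c + d) = mon t c * mon t d := by
  unfold mon
  rw [← Finset.prod_mul_distrib]
  exact Finset.prod_congr rfl (fun i _ => pow_add _ _ _)

omit [Fact p.Prime] [Algebra (ZMod p) R] [CharP R p] in
theorem mon_isUnit (c : Fin N → ℕ) : IsUnit (mon t c) := by
  unfold mon
  rw [show (∏ i, (t i : R) ^ c i) = ((∏ i, t i ^ c i : Rˣ) : R) by push_cast; rfl]
  exact Units.isUnit _

omit [Fact p.Prime] [Algebra (ZMod p) R] [CharP R p] in
theorem mon_pow (c : Fin N → ℕ) (n : ℕ) : mon t c ^ n = mon t (fun i => n * c i) := by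
  unfold mon
  rw [← Finset.prod_pow]
  refine Finset.prod_congr rfl (fun i _ => ?_)
  rw [← pow_mul, mul_comm]

omit [CharP R p] in
theorem mon_mem (h : ∀ i, (t i : R) ∈ A) (c : Fin N → ℕ) : mon t c ∈ A :=
  Subalgebra.prod_mem _ (fun i _ => Subalgebra.pow_mem _ (h i) _)

omit [Algebra (ZMod p) R] in
theorem natCast_pow (n : ℕ) : ((n : R)) ^ p = (n : R) := by
  have := map_natCast (frobenius R p) n
  rwa [frobenius_def] at this

omit [CharP R p] in
theorem th_pow {θ : Fin N → R →+ R} (hθ : IsTh A t θ) (i : Fin N) (x : R) (c : R)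
    (h : θ i x = c * x) (n : ℕ) : θ i (x ^ n) = (n : R) * c * x ^ n := by
  induction n with
  | zero =>
    have h1 := hθ.leib i 1 1
    rw [mul_one, one_mul] at h1
    rw [pow_zero, Nat.cast_zero, zero_mul, zero_mul]
    exact left_eq_add.mp h1
  | succ n ih =>
    rw [pow_succ, hθ.leib, ih, h]
    push_cast
    ring

omit [CharP R p] in
theorem th_prod {θ : Fin N → R →+ R} (hθ : IsTh A t θ) (i : Fin N) {ι : Type} (s : Finset ι)
    (f : ι → R) (c : ι → R) (h : ∀ j ∈ s, θ i (f j) = c j * f j) :
    θ i (∏ j ∈ s, f j) = (∑ j ∈ s, c j) * ∏ j ∈ s, f j := by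
  classical
  induction s using Finset.induction_on with
  | empty =>
    have h1 := hθ.leib i 1 1
    rw [mul_one, one_mul] at h1
    rw [Finset.prod_empty, Finset.sum_empty, zero_mul]
    exact left_eq_add.mp h1
  | insert a s ha ih =>
    rw [Finset.prod_insert ha, Finset.sum_insert ha, hθ.leib,
      ih (fun j hj => h j (Finset.mem_insert_of_mem hj)), h a (Finset.mem_insert_self a s)]
    ring

theorem th_mon {θ : Fin N → R →+ R} (hθ : IsTh A t θ) (i : Fin N) (c : Fin N → ℕ) :
    θ i (mon t c) = (c i : R) * mon t c := by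
  unfold mon
  rw [th_prod hθ i Finset.univ (fun j => (t j : R) ^ c j) (fun j => if j = i then (c j : R) else 0)]
  · rw [Finset.sum_ite_eq' Finset.univ i (fun j => (c j : R)), if_pos (Finset.mem_univ i)]
  · intro j _
    have h1 : θ i (t j : R) = (if j = i then 1 else 0) * (t j : R) := by
      rw [hθ.coord]
      by_cases hij : i = j
      · rw [if_pos hij, if_pos hij.symm, one_mul]
      · rw [if_neg hij, if_neg (Ne.symm hij), zero_mul]
    have h2 := th_pow hθ i (t j : R) _ h1 (c j)
    change θ i ((t j : R) ^ c j) = _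
    rw [h2]
    split_ifs <;> simp

theorem th_pmon {θ : Fin N → R →+ R} (hθ : IsTh A t θ) (hp : ∀ i a, θ i (a ^ p) = 0) (i : Fin N)
    (c : Fin N → ℕ) (b : R) :
    θ i (b ^ p * mon t c) = (c i : R) * (b ^ p * mon t c) := by
  rw [hθ.leib, hp, th_mon hθ]
  ring

theorem isUnit_natCast (n : ℕ) (h : ¬ p ∣ n) (A' : Type u) [CommRing A'] [Algebra (ZMod p) A'] :
    IsUnit (n : A') := by
  have h1 : ((n : ℕ) : ZMod p) ≠ 0 := by
    rwa [Ne, ZMod.natCast_eq_zero_iff]
  have h2 := (IsUnit.mk0 _ h1).map (algebraMap (ZMod p) A')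
  rwa [map_natCast] at h2

end

end THW_

open THW_ in
theorem thw_proof (hPBG : Stmt_PBG.{u}) (hPBI : Stmt_PBI.{u}) (hTHC : Stmt_THC.{u}) :
    Stmt_THW.{u} := by
  intro p _ N R _ _ _ A t h θ hθ c'
  obtain ⟨hthp, -⟩ := hTHC p N R A t h θ hθ
  have hp : 0 < p := (Fact.out : p.Prime).pos
  -- expansion in A
  have hex : ∀ a ∈ A, ∃ b : (Fin N → Fin p) → A,
      a = ∑ g, (b g : R) ^ p * mon t (fun i => (g i : ℕ)) := by
    intro a ha
    obtain ⟨b, hb⟩ := hPBG p N A _ h.etale ⟨a, ha⟩
    refine ⟨b, ?_⟩
    have h1 := congrArg (fun x : A => (x : R)) hb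
    simp only [AddSubmonoidClass.coe_finsetSum, MulMemClass.coe_mul, SubmonoidClass.coe_pow,
      SubmonoidClass.coe_finsetProd] at h1
    exact h1
  have huniq : ∀ b : (Fin N → Fin p) → A,
      ∑ g, (b g : R) ^ p * mon t (fun i => (g i : ℕ)) = 0 → b = 0 := by
    intro b hb
    apply hPBI p N A _ h.etale b
    apply Subtype.ext
    simp only [AddSubmonoidClass.coe_finsetSum, MulMemClass.coe_mul, SubmonoidClass.coe_pow,
      SubmonoidClass.coe_finsetProd, ZeroMemClass.coe_zero]
    exact hb
  refine ⟨?_, ?_, ?_⟩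
  · intro i a ha
    refine ⟨θ i a + (c' i : R) * a, ?_, ?_⟩
    · exact A.add_mem (hθ.mem i a ha) (A.mul_mem (natCast_mem A (c' i)) ha)
    · rw [hθ.leib, th_mon hθ]
      ring
  · intro i a ha
    obtain ⟨b, hb⟩ := hex a ha
    have e0 : mon t c' * a = ∑ g, (b g : R) ^ p * mon t (c' + fun i => (g i : ℕ)) := by
      rw [hb, Finset.mul_sum]
      refine Finset.sum_congr rfl (fun g _ => ?_)
      rw [mon_add]
      ring
    have key : ∀ k : ℕ, (θ i)^[k] (mon t c' * a) =
        ∑ g : Fin N → Fin p, ((c' i + (g i : ℕ) : ℕ) : R) ^ k *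
          ((b g : R) ^ p * mon t (c' + fun i => (g i : ℕ))) := by
      intro k
      induction k with
      | zero =>
        rw [Function.iterate_zero, id_eq, e0]
        refine Finset.sum_congr rfl (fun g _ => ?_)
        rw [pow_zero, one_mul]
      | succ k ih =>
        rw [Function.iterate_succ_apply', ih, map_sum]
        refine Finset.sum_congr rfl (fun g _ => ?_)
        rw [hθ.leib, th_pmon hθ hthp]
        have h0 : θ i (((c' i + (g i : ℕ) : ℕ) : R) ^ k) = 0 := by
          have h1 : ∀ n : ℕ, θ i ((n : ℕ) : R) = 0 := by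
            intro n
            rw [← natCast_pow (p := p) n]
            exact hthp i _
          rw [← Nat.cast_pow]
          exact h1 _
        rw [h0, mul_zero, add_zero, Pi.add_apply, pow_succ]
        ring
    have h1 := key 1
    rw [Function.iterate_one] at h1
    rw [key p, h1]
    refine Finset.sum_congr rfl (fun g _ => ?_)
    rw [natCast_pow, pow_one]
  · intro c hc hc' hcc
    have hle : ∀ i, c' i ≤ p * c i := by
      intro i
      rcases Nat.eq_zero_or_pos (c i) with h0 | h0
      · rw [(hcc i).mp h0]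
        exact Nat.zero_le _
      · have : c i = 1 := le_antisymm (hc i) h0
        rw [this, mul_one]
        exact hc' i
    have hsum : (c' + fun i => p * c i - c' i) = fun i => p * c i := by
      funext i
      exact Nat.add_sub_cancel' (hle i)
    refine ⟨?_, ?_, ?_⟩
    · intro a ha h0
      obtain ⟨b, hb⟩ := hex a ha
      have e0 : mon t c' * a = ∑ g, (b g : R) ^ p * mon t (c' + fun i => (g i : ℕ)) := by
        rw [hb, Finset.mul_sum]
        refine Finset.sum_congr rfl (fun g _ => ?_)
        rw [mon_add]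
        ring
      -- vanishing of the coefficients
      have hz : ∀ (i : Fin N) (g : Fin N → Fin p), ((c' i + (g i : ℕ) : ℕ) : A) * b g = 0 := by
        intro i
        have h1 := h0 i
        rw [e0, map_sum] at h1
        have h2 : (∑ g : Fin N → Fin p, ((((c' i + (g i : ℕ) : ℕ) : A) * b g : A) : R) ^ p *
            mon t (fun i => (g i : ℕ))) = 0 := by
          apply (mon_isUnit (t := t) c').mul_right_eq_zero.mp
          rw [Finset.mul_sum, ← h1]
          refine Finset.sum_congr rfl (fun g _ => ?_)
          rw [th_pmon hθ hthp, mon_add]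
          have h3 : ((((c' i + (g i : ℕ) : ℕ) : A) * b g : A) : R) ^ p =
              ((c' i + (g i : ℕ) : ℕ) : R) * (b g : R) ^ p := by
            have h4 : (((c' i + (g i : ℕ) : ℕ) : A) : R) = ((c' i + (g i : ℕ) : ℕ) : R) :=
              map_natCast A.val _
            rw [MulMemClass.coe_mul, mul_pow, h4, natCast_pow]
          rw [h3, Pi.add_apply]
          ring
        intro g
        exact congrFun (huniq _ h2) g
      -- the only exponent
      have hg0 : ∀ i, p * c i - c' i < p := by
        intro i
        rcases Nat.eq_zero_or_pos (c i) with h0 | h0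
        · rw [h0, mul_zero, Nat.zero_sub]
          exact hp
        · have h1 : c i = 1 := le_antisymm (hc i) h0
          have h2 : c' i ≠ 0 := fun h3 => h0.ne' ((hcc i).mpr h3)
          rw [h1, mul_one]
          exact Nat.sub_lt hp (Nat.pos_of_ne_zero h2)
      let g0 : Fin N → Fin p := fun i => ⟨p * c i - c' i, hg0 i⟩
      have honly : ∀ g : Fin N → Fin p, g ≠ g0 → b g = 0 := by
        intro g hg
        by_contra hbg
        apply hg
        funext i
        have hdvd : p ∣ c' i + (g i : ℕ) := by
          by_contra hnd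
          have h1 := isUnit_natCast (p := p) _ hnd A
          exact hbg (h1.mul_right_eq_zero.mp (hz i g))
        apply Fin.ext
        change (g i : ℕ) = p * c i - c' i
        have hgi : (g i : ℕ) < p := (g i).isLt
        rcases Nat.eq_zero_or_pos (c i) with h0 | h0
        · have h1 := (hcc i).mp h0
          rw [h1, zero_add] at hdvd
          rw [h0, mul_zero, Nat.zero_sub]
          exact Nat.eq_zero_of_dvd_of_lt hdvd hgi
        · have h1 : c i = 1 := le_antisymm (hc i) h0
          have h2 : c' i ≠ 0 := fun h3 => h0.ne' ((hcc i).mpr h3)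
          have h3 := hc' i
          rw [h1, mul_one]
          obtain ⟨k, hk⟩ := hdvd
          have hk1 : k = 1 := by
            have hlt : p * k < p * 2 := by rw [← hk]; omega
            have hlt' := Nat.lt_of_mul_lt_mul_left hlt
            have hk0 : k ≠ 0 := by
              rintro rfl
              rw [mul_zero] at hk
              omega
            omega
          rw [hk1, mul_one] at hk
          omega
      refine ⟨b g0, (b g0).2, ?_⟩
      rw [e0, Finset.sum_eq_single g0]
      · rw [mul_pow, mon_pow, ← hsum, mul_comm]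
      · intro g _ hg
        rw [honly g hg, ZeroMemClass.coe_zero, zero_pow hp.ne', zero_mul]
      · intro h1
        exact absurd (Finset.mem_univ g0) h1
    · intro b hb
      refine ⟨mon t (fun i => p * c i - c' i) * b ^ p,
        A.mul_mem (mon_mem h.t_mem _) (A.pow_mem hb _), ?_⟩
      rw [mul_pow, mon_pow, ← hsum, mon_add]
      ring
    · intro b hb
      obtain ⟨g, hg, hgu, hloc⟩ := h.loc
      obtain ⟨e, he⟩ := hloc b
      have h1 : (b * g ^ e) ^ p = 0 := by
        rw [mul_pow, hb, zero_mul]
      let β : (Fin N → Fin p) → A := fun f => if f = (fun _ => ⟨0, hp⟩) then ⟨b * g ^ e, he⟩ else 0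
      have h2 : β = 0 := by
        apply huniq
        refine Finset.sum_eq_zero (fun f _ => ?_)
        by_cases hf : f = (fun _ => ⟨0, hp⟩)
        · have : β f = ⟨b * g ^ e, he⟩ := if_pos hf
          rw [this]
          change (b * g ^ e) ^ p * _ = 0
          rw [h1, zero_mul]
        · have : β f = 0 := if_neg hf
          rw [this, ZeroMemClass.coe_zero, zero_pow hp.ne', zero_mul]
      have h3 : β (fun _ => ⟨0, hp⟩) = ⟨b * g ^ e, he⟩ := if_pos rfl
      rw [h2] at h3
      have h4 : b * g ^ e = 0 := (congrArg (fun x : A => (x : R)) h3).symm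
      exact (hgu.pow e).mul_left_eq_zero.mp h4

end

end Pool.Agent.DBX.DIA2
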