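import Pool.Agent.DBX.DIA2.PBG
import Pool.Agent.DBX.DIA2.PBI
import Pool.Agent.DBX.DIA2.DIF
import Pool.Agent.DBX.DIA2.THC
import Pool.Agent.DBX.DIA2.THW
import Pool.Agent.DBX.DIA2.KOH
import Pool.Agent.DBX.DIA2.KOS
import Pool.Agent.DBX.DIA2.FRM
import Pool.Agent.DBX.DIA2.CAR

/-!
# DBX, area DIA2: assembly
-/

set_option autoImplicit false

namespace Pool.Agent.DBX.DIA2

universe u

theorem a_pbg : Stmt_PBG.{u} := pbg_proof.{u} 

theorem a_pbi : Stmt_PBI.{u} := pbi_proof.{u} a_pbg.{u}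

theorem a_dif : Stmt_DIF.{u} := dif_proof.{u} 

theorem a_thc : Stmt_THC.{u} := thc_proof.{u} 

theorem a_thw : Stmt_THW.{u} := thw_proof.{u} a_pbg.{u} a_pbi.{u} a_thc.{u}

theorem a_koh : Stmt_KOH.{u} := koh_proof.{u} 

theorem a_kos : Stmt_KOS.{u} := kos_proof.{u} a_koh.{u}

theorem a_frm : Stmt_FRM.{u} := frm_proof.{u} 

theorem a_car : Stmt_CAR.{u} := car_proof.{u} a_dif.{u} a_thc.{u} a_thw.{u} a_kos.{u} a_frm.{u}

end Pool.Agent.DBX.DIA2
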