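import Pool.Agent.DBX.DIA2.Chart

/-!
# DBX, area DIA2: the Cartier isomorphism for logarithmic lattices.  Definitions and statements.
-/

set_option autoImplicit false

namespace Pool.Agent.DBX.DIA2

open KaehlerDifferential Pool.Agent.DBE Pool.Agent.DBX Pool.Agent.DBX.DIB

universe u

noncomputable section

/-- `∏ t_i ^ c_i` -/
def mon {N : ℕ} {R : Type u} [CommRing R] (t : Fin N → Rˣ) (c : Fin N → ℕ) : R :=
  ∏ i, (t i : R) ^ c i

/-- logarithmic forms -/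
def LM {p N : ℕ} {R : Type u} [CommRing R] [Algebra (ZMod p) R] (A : Subalgebra (ZMod p) R)
    (t : Fin N → Rˣ) : Subring (DR (ZMod p) R) :=
  Subring.closure (fn (ZMod p) R '' (A : Set R) ∪
    Set.range (fun i => one (ZMod p) R (lg (p := p) (t i))))

/-- the derivations `θ_i = t_i ∂/∂t_i` -/
structure IsTh {p N : ℕ} {R : Type u} [CommRing R] [Algebra (ZMod p) R]
    (A : Subalgebra (ZMod p) R) (t : Fin N → Rˣ) (θ : Fin N → R →+ R) : Prop where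
  leib : ∀ i a b, θ i (a * b) = a * θ i b + b * θ i a
  coord : ∀ i j, θ i (t j : R) = if i = j then (t j : R) else 0
  mem : ∀ i, ∀ a ∈ A, θ i a ∈ A
  D_eq : ∀ a, D (ZMod p) R a = ∑ i, θ i a • lg (p := p) (t i)
  indep : ∀ a : Fin N → R, ∑ i, a i • lg (p := p) (t i) = 0 → a = 0

/-- Koszul differential of operators `θ i` -/
def kd {N : ℕ} {G : Type u} [AddCommGroup G] (θ : Fin N → G →+ G) (a : Finset (Fin N) → G)
    (J : Finset (Fin N)) : G :=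
  ∑ i ∈ J, ((-1 : ℤ) ^ (J.filter (fun j => j < i)).card) • θ i (a (J.erase i))

/-- PBG: an étale algebra over `F_p[T]` is generated by the monomials over the `p`-th powers. -/
def Stmt_PBG : Prop :=
  ∀ (p : ℕ) [Fact p.Prime] (N : ℕ) (A : Type u) [CommRing A] [Algebra (ZMod p) A] (t : Fin N → A),
    (MvPolynomial.aeval (R := ZMod p) t).toRingHom.Etale →
    ∀ a : A, ∃ b : (Fin N → Fin p) → A, a = ∑ g, b g ^ p * ∏ i, t i ^ (g i : ℕ)

/-- PBI: uniqueness of the coefficients. -/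
def Stmt_PBI : Prop :=
  ∀ (p : ℕ) [Fact p.Prime] (N : ℕ) (A : Type u) [CommRing A] [Algebra (ZMod p) A] (t : Fin N → A),
    (MvPolynomial.aeval (R := ZMod p) t).toRingHom.Etale →
    ∀ b : (Fin N → Fin p) → A, ∑ g, b g ^ p * ∏ i, t i ^ (g i : ℕ) = 0 → b = 0

/-- DIF: existence of the derivations `θ_i`. -/
def Stmt_DIF : Prop :=
  ∀ (p : ℕ) [Fact p.Prime] (N : ℕ) (R : Type u) [CommRing R] [Algebra (ZMod p) R]
    (A : Subalgebra (ZMod p) R) (t : Fin N → Rˣ), Chart p R A t →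
    ∃ θ : Fin N → R →+ R, IsTh A t θ

/-- THC: the operators `θ_i` commute. -/
def Stmt_THC : Prop :=
  ∀ (p : ℕ) [Fact p.Prime] (N : ℕ) (R : Type u) [CommRing R] [Algebra (ZMod p) R] [CharP R p]
    (A : Subalgebra (ZMod p) R) (t : Fin N → Rˣ), Chart p R A t →
    ∀ (θ : Fin N → R →+ R), IsTh A t θ →
    (∀ i a, θ i (a ^ p) = 0) ∧ ∀ i j a, θ i (θ j a) = θ j (θ i a)

/-- THW: on `t^c' A` the operators `θ_i` are semisimple with eigenvalues in `F_p`, and the common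
kernel consists of the `p`-th powers of `t^c A`. -/
def Stmt_THW : Prop :=
  ∀ (p : ℕ) [Fact p.Prime] (N : ℕ) (R : Type u) [CommRing R] [Algebra (ZMod p) R] [CharP R p]
    (A : Subalgebra (ZMod p) R) (t : Fin N → Rˣ), Chart p R A t →
    ∀ (θ : Fin N → R →+ R), IsTh A t θ → ∀ (c' : Fin N → ℕ),
      (∀ i, ∀ a ∈ A, ∃ a' ∈ A, θ i (mon t c' * a) = mon t c' * a') ∧
      (∀ i, ∀ a ∈ A, (θ i)^[p] (mon t c' * a) = θ i (mon t c' * a)) ∧
      ∀ c : Fin N → ℕ, (∀ i, c i ≤ 1) → (∀ i, c' i ≤ p) → (∀ i, c i = 0 ↔ c' i = 0) →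
        (∀ a ∈ A, (∀ i, θ i (mon t c' * a) = 0) → ∃ b ∈ A,
          mon t c' * a = (mon t c * b) ^ p) ∧
        (∀ b ∈ A, ∃ a ∈ A, (mon t c * b) ^ p = mon t c' * a) ∧
        ∀ b : R, b ^ p = 0 → b = 0

/-- KOH: the homotopy formula for the Koszul differential. -/
def Stmt_KOH : Prop :=
  ∀ (N : ℕ) (G : Type u) [AddCommGroup G] (θ : Fin N → G →+ G),
    (∀ i j x, θ i (θ j x) = θ j (θ i x)) → (∀ a, kd θ (kd θ a) = 0) ∧
    ∀ (u : Fin N) (a : Finset (Fin N) → G) (J : Finset (Fin N)),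
      kd θ (fun I => if u ∈ I then 0 else
        ((-1 : ℤ) ^ (I.filter (fun j => j < u)).card) • a (insert u I)) J +
      (if u ∈ J then 0 else
        ((-1 : ℤ) ^ (J.filter (fun j => j < u)).card) • kd θ a (insert u J)) = θ u (a J)

/-- KOS: cohomology of the Koszul complex of commuting semisimple operators. -/
def Stmt_KOS : Prop :=
  ∀ (p : ℕ) [Fact p.Prime] (N : ℕ) (G : Type u) [AddCommGroup G] (θ : Fin N → G →+ G)
    (U : AddSubgroup G), (∀ i j x, θ i (θ j x) = θ j (θ i x)) →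
    (∀ i, ∀ x ∈ U, θ i x ∈ U) → (∀ i, ∀ x ∈ U, (θ i)^[p] x = θ i x) →
    (∀ a : Finset (Fin N) → G, (∀ J, a J ∈ U) → kd θ a = 0 →
      ∃ b : Finset (Fin N) → G, (∀ J, b J ∈ U) ∧ ∀ J i, θ i (a J - kd θ b J) = 0) ∧
    (∀ a b : Finset (Fin N) → G, (∀ J, a J ∈ U) → (∀ J, b J ∈ U) → (∀ i J, θ i (a J) = 0) →
      a = kd θ b → a = 0)

/-- FRM: forms in coordinates. -/
def Stmt_FRM : Prop :=
  ∀ (p : ℕ) [Fact p.Prime] (N : ℕ) (R : Type u) [CommRing R] [Algebra (ZMod p) R] [CharP R p]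
    (A : Subalgebra (ZMod p) R) (t : Fin N → Rˣ), Chart p R A t →
    ∀ (θ : Fin N → R →+ R), IsTh A t θ →
    ∃ co : (Finset (Fin N) → R) ≃+ DR (ZMod p) R,
      (∀ a, dR (ZMod p) R (co a) = co (kd θ a)) ∧
      (∀ (r : R) a, fn (ZMod p) R r * co a = co (fun I => r * a I)) ∧
      (∀ a, co a ∈ LM A t ↔ ∀ I, a I ∈ A) ∧
      ∀ (θ' : Ω[R⁄ZMod p] →+ Ω[R⁄ZMod p]) (Λ : DR (ZMod p) R →+* DR (ZMod p) R),
        (∀ (a : R) w, θ' (a • w) = a ^ p • θ' w) → (∀ i, θ' (lg (t i)) = lg (t i)) →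
        (∀ a, Λ (fn (ZMod p) R a) = fn (ZMod p) R (a ^ p)) →
        (∀ w, Λ (one (ZMod p) R w) = one (ZMod p) R (θ' w)) →
        ∀ a, Λ (co a) = co (fun I => a I ^ p)

/-- CAR: the Cartier isomorphism. -/
def Stmt_CAR : Prop :=
  ∀ (p : ℕ) [Fact p.Prime] (N : ℕ) (R : Type u) [CommRing R] [Algebra (ZMod p) R] [CharP R p]
    (A : Subalgebra (ZMod p) R) (t : Fin N → Rˣ), Chart p R A t →
    ∀ (θ' : Ω[R⁄ZMod p] →+ Ω[R⁄ZMod p]) (Λ : DR (ZMod p) R →+* DR (ZMod p) R),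
      (∀ (a : R) w, θ' (a • w) = a ^ p • θ' w) → (∀ i, θ' (lg (t i)) = lg (t i)) →
      (∀ a, Λ (fn (ZMod p) R a) = fn (ZMod p) R (a ^ p)) →
      (∀ w, Λ (one (ZMod p) R w) = one (ZMod p) R (θ' w)) →
      ∀ (c c' : Fin N → ℕ), (∀ i, c i ≤ 1) → (∀ i, c' i ≤ p) → (∀ i, c i = 0 ↔ c' i = 0) →
      (∀ x ∈ LM A t, ∀ y ∈ LM A t,
        Λ (fn (ZMod p) R (mon t c) * x) =
          dR (ZMod p) R (fn (ZMod p) R (mon t c') * y) →
        fn (ZMod p) R (mon t c) * x = 0) ∧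
      (∀ y ∈ LM A t, dR (ZMod p) R (fn (ZMod p) R (mon t c') * y) = 0 →
        ∃ x ∈ LM A t, ∃ y' ∈ LM A t, fn (ZMod p) R (mon t c') * y =
          Λ (fn (ZMod p) R (mon t c) * x) +
            dR (ZMod p) R (fn (ZMod p) R (mon t c') * y'))

end

end Pool.Agent.DBX.DIA2
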