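import Pool.Agent.DBX.DIB.Defs

/-!
# DBX, areas DIA and DIA2: charts with étale coordinates
-/

set_option autoImplicit false

namespace Pool.Agent.DBX

open KaehlerDifferential Pool.Agent.DBE

universe u

noncomputable section

/-- Étale coordinates `t i` on the subalgebra `A` of `R`; they are units in the localisation `R`
of `A`. -/
structure Chart (p : ℕ) (R : Type u) [CommRing R] [Algebra (ZMod p) R] {N : ℕ}
    (A : Subalgebra (ZMod p) R) (t : Fin N → Rˣ) : Prop where
  t_mem : ∀ i, (t i : R) ∈ A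
  etale : (MvPolynomial.aeval (R := ZMod p)
    (fun i => (⟨(t i : R), t_mem i⟩ : A))).toRingHom.Etale
  loc : ∃ g ∈ A, IsUnit g ∧ ∀ x : R, ∃ e : ℕ, x * g ^ e ∈ A

/-- `dlog t` -/
def lg {p : ℕ} {R : Type u} [CommRing R] [Algebra (ZMod p) R] (t : Rˣ) : Ω[R⁄ZMod p] :=
  ((t⁻¹ : Rˣ) : R) • D (ZMod p) R (t : R)

end

end Pool.Agent.DBX
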