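import Pool.Agent.DBX.DIA2.Stmts

set_option autoImplicit false

/-! # MP_2c751f_ag, squad DBX, area DIA2, module PBG: generation by monomials over `p`-th powers -/

namespace Pool.Agent.DBX.DIA2

open KaehlerDifferential Pool.Agent.DBE Pool.Agent.DBX Pool.Agent.DBX.DIB

universe u

/-- a finite formally unramified algebra whose elements have their `p`-th powers in the image of
the base is a quotient of the base -/
theorem PBG_surj (p : ℕ) [Fact p.Prime] (B A : Type u) [CommRing B] [CommRing A] [CharP A p]
    [Algebra B A] [Module.Finite B A] [Algebra.FormallyUnramified B A]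
    (h : ∀ a : A, ∃ b : B, algebraMap B A b = a ^ p) :
    Function.Surjective (algebraMap B A) := by
  rw [← Algebra.isEpi_iff_surjective_algebraMap_of_finite]
  rw [Algebra.isEpi_iff_forall_one_tmul_eq]
  open TensorProduct in
  obtain ⟨t, ht, ht1⟩ := (Algebra.FormallyUnramified.iff_exists_tensorProduct (R := B) (S := A)).mp
    inferInstance
  rcases subsingleton_or_nontrivial (TensorProduct B A A) with hs | hn
  · intro a
    exact Subsingleton.elim _ _
  have hchar : CharP (TensorProduct B A A) p := by
    have : Nontrivial A := by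
      by_contra hc
      rw [not_nontrivial_iff_subsingleton] at hc
      apply not_subsingleton (TensorProduct B A A)
      infer_instance
    letI : Algebra (ZMod p) A := ZMod.algebra A p
    letI : Algebra (ZMod p) (TensorProduct B A A) :=
      ((algebraMap A (TensorProduct B A A)).comp (algebraMap (ZMod p) A)).toAlgebra
    exact charP_of_injective_algebraMap (algebraMap (ZMod p) (TensorProduct B A A)).injective p
  have hJ : (1 - t) ∈ KaehlerDifferential.ideal B A := by
    rw [RingHom.mem_ker] 
    simp [ht1]
  rw [← KaehlerDifferential.span_range_eq_ideal] at hJ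
  have hnil : IsNilpotent (1 - t) := by
    have h1 : Ideal.span (Set.range fun s : A => (1 : A) ⊗ₜ[B] s - s ⊗ₜ[B] (1 : A)) ≤
        nilradical (TensorProduct B A A) := by
      rw [Ideal.span_le]
      rintro _ ⟨s, rfl⟩
      simp only [SetLike.mem_coe, mem_nilradical]
      refine ⟨p, ?_⟩
      rw [sub_pow_char]
      obtain ⟨b, hb⟩ := h s
      simp only [Algebra.TensorProduct.tmul_pow, one_pow, ← hb]
      rw [Algebra.algebraMap_eq_smul_one, TensorProduct.tmul_smul, TensorProduct.smul_tmul',
        sub_self]
    exact mem_nilradical.mp (h1 hJ)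
  have hidem : IsIdempotentElem (1 - t) := by
    have h2 : (1 - t) * t = 0 := by
      have h3 : ∀ x ∈ Ideal.span (Set.range fun s : A => (1 : A) ⊗ₜ[B] s - s ⊗ₜ[B] (1 : A)),
          x * t = 0 := by
        intro x hx
        induction hx using Submodule.span_induction with
        | mem x hx =>
          obtain ⟨s, rfl⟩ := hx
          exact ht s
        | zero => simp
        | add x y _ _ hx hy => rw [add_mul, hx, hy, add_zero]
        | smul a x _ hx => rw [smul_eq_mul, mul_assoc, hx, mul_zero]
      exact h3 _ hJ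
    unfold IsIdempotentElem
    rw [mul_sub, h2]
    simp
  have h0 : 1 - t = 0 := by
    obtain ⟨n, hn⟩ := hnil
    rcases Nat.eq_zero_or_pos n with rfl | hpos
    · simp at hn
    · rw [← hidem.pow_eq hpos.ne'] 
      exact hn
  intro a
  have h4 := ht a
  have h5 : t = 1 := (sub_eq_zero.mp h0).symm
  rw [h5, mul_one] at h4
  exact sub_eq_zero.mp h4


section
variable {p : ℕ} [Fact p.Prime] {N : ℕ} {A : Type u} [CommRing A] [CharP A p]

/-- the span of the monomials over the `p`-th powers -/
noncomputable def PBG_S (p : ℕ) [Fact p.Prime] {N : ℕ} {A : Type u} [CommRing A] [CharP A p]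
    (t : Fin N → A) : Submodule (frobenius A p).range A :=
  Submodule.span (frobenius A p).range (Set.range (fun g : Fin N → Fin p => ∏ i, t i ^ (g i : ℕ)))

theorem PBG_pow_mul (t : Fin N → A) (b x : A) (hx : x ∈ PBG_S p t) : b ^ p * x ∈ PBG_S p t := by
  have h := (PBG_S p t).smul_mem ⟨b ^ p, ⟨b, frobenius_def p b⟩⟩ hx
  exact h

theorem PBG_mon (t : Fin N → A) (d : Fin N → ℕ) : ∏ i, t i ^ d i ∈ PBG_S p t := by
  have hp : 0 < p := (Fact.out : p.Prime).pos
  have h1 : ∏ i, t i ^ d i = (∏ i, t i ^ (d i / p)) ^ p * ∏ i, t i ^ (d i % p) := by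
    rw [← Finset.prod_pow, ← Finset.prod_mul_distrib]
    refine Finset.prod_congr rfl fun i _ => ?_
    rw [← pow_mul, ← pow_add, mul_comm (d i / p) p, Nat.div_add_mod]
  rw [h1]
  apply PBG_pow_mul
  exact Submodule.subset_span ⟨fun i => ⟨d i % p, Nat.mod_lt _ hp⟩, rfl⟩

theorem PBG_mul (t : Fin N → A) (x y : A) (hx : x ∈ PBG_S p t) (hy : y ∈ PBG_S p t) :
    x * y ∈ PBG_S p t := by
  induction hx using Submodule.span_induction with
  | mem x hx =>
    obtain ⟨g, rfl⟩ := hx
    induction hy using Submodule.span_induction with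
    | mem y hy =>
      obtain ⟨g', rfl⟩ := hy
      have h1 : (∏ i, t i ^ (g i : ℕ)) * ∏ i, t i ^ (g' i : ℕ) =
          ∏ i, t i ^ ((g i : ℕ) + (g' i : ℕ)) := by
        rw [← Finset.prod_mul_distrib]
        exact Finset.prod_congr rfl fun i _ => (pow_add _ _ _).symm
      show (∏ i, t i ^ (g i : ℕ)) * (∏ i, t i ^ (g' i : ℕ)) ∈ PBG_S p t
      rw [h1]
      exact PBG_mon t _
    | zero => rw [mul_zero]; exact Submodule.zero_mem _
    | add y z _ _ hy hz => rw [mul_add]; exact Submodule.add_mem _ hy hz
    | smul a y _ hy => rw [mul_smul_comm]; exact Submodule.smul_mem _ _ hy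
  | zero => rw [zero_mul]; exact Submodule.zero_mem _
  | add y z _ _ hy hz => rw [add_mul]; exact Submodule.add_mem _ hy hz
  | smul a y _ hy => rw [smul_mul_assoc]; exact Submodule.smul_mem _ _ hy

end

theorem pbg_proof : Stmt_PBG.{u} := by
  intro p _ N A _ _ t het a
  rcases subsingleton_or_nontrivial A with hs | hn
  · exact ⟨0, Subsingleton.elim _ _⟩
  have hchar : CharP A p := charP_of_injective_algebraMap (algebraMap (ZMod p) A).injective p
  letI algP : Algebra (MvPolynomial (Fin N) (ZMod p)) A :=
    (MvPolynomial.aeval (R := ZMod p) t).toRingHom.toAlgebra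
  have hmap : ∀ f : MvPolynomial (Fin N) (ZMod p), algebraMap (MvPolynomial (Fin N) (ZMod p)) A f =
      MvPolynomial.aeval t f := fun f => rfl
  have hEt : Algebra.Etale (MvPolynomial (Fin N) (ZMod p)) A := het
  let A1 : Subalgebra (MvPolynomial (Fin N) (ZMod p)) A :=
    Algebra.adjoin (MvPolynomial (Fin N) (ZMod p)) (Set.range fun b : A => b ^ p)
  have hA1 : ∀ a : A, ∃ b : A1, algebraMap A1 A b = a ^ p :=
    fun a => ⟨⟨a ^ p, Algebra.subset_adjoin ⟨a, rfl⟩⟩, rfl⟩
  have hft : Algebra.FiniteType A1 A :=
    Algebra.FiniteType.of_restrictScalars_finiteType (MvPolynomial (Fin N) (ZMod p)) A1 A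
  have hint : Algebra.IsIntegral A1 A := by
    constructor
    intro a
    obtain ⟨b, hb⟩ := hA1 a
    have hp : 0 < p := (Fact.out : p.Prime).pos
    apply IsIntegral.of_pow hp
    rw [← hb]
    exact isIntegral_algebraMap
  have hfin : Module.Finite A1 A := Algebra.IsIntegral.finite
  have hunr : Algebra.FormallyUnramified A1 A :=
    Algebra.FormallyUnramified.of_restrictScalars (MvPolynomial (Fin N) (ZMod p)) A1 A
  have hsurj := PBG_surj p A1 A hA1
  have hS : ∀ x ∈ A1, x ∈ PBG_S p t := by
    intro x hx
    induction hx using Algebra.adjoin_induction with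
    | mem x hx =>
      obtain ⟨b, rfl⟩ := hx
      have h1 := PBG_pow_mul (p := p) t b 1 (by simpa using PBG_mon (p := p) t 0)
      simpa using h1
    | algebraMap f =>
      rw [hmap]
      induction f using MvPolynomial.induction_on with
      | C c =>
        have h1 := PBG_pow_mul (p := p) t (algebraMap (ZMod p) A c) 1
          (by simpa using PBG_mon (p := p) t 0)
        rw [← map_pow, ZMod.pow_card, mul_one] at h1
        simpa using h1
      | add f g hf hg => rw [map_add]; exact Submodule.add_mem _ hf hg
      | mul_X f i hf =>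
        rw [map_mul, MvPolynomial.aeval_X]
        refine PBG_mul t _ _ hf ?_
        have h1 := PBG_mon (p := p) t (Pi.single i 1)
        rwa [Finset.prod_eq_single i, Pi.single_eq_same, pow_one] at h1
        · intro j _ hj
          rw [Pi.single_eq_of_ne hj, pow_zero]
        · intro hi
          exact absurd (Finset.mem_univ i) hi
    | add x y _ _ hx hy => exact Submodule.add_mem _ hx hy
    | mul x y _ _ hx hy => exact PBG_mul t x y hx hy
  obtain ⟨b, rfl⟩ := hsurj a
  have h2 := hS _ b.2
  rw [PBG_S, Submodule.mem_span_range_iff_exists_fun] at h2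
  obtain ⟨c, hc⟩ := h2
  choose d hd using fun g => (c g).2
  refine ⟨d, ?_⟩
  show (b : A) = _
  rw [← hc]
  refine Finset.sum_congr rfl fun g _ => ?_
  rw [← frobenius_def, hd g]
  rfl

end Pool.Agent.DBX.DIA2
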